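import Mathlib

/-!
A regular cover of an explicit cubic graph on `2 d` vertices whose automorphism group is exactly
the covering group.
-/

set_option maxHeartbeats 800000
set_option linter.unusedSimpArgs false

namespace Pool.Agent.Lib.MP_b549f0_co

/-- neighbours in the base graph -/
def nb (d : ℕ) : ℕ → List ℕ
  | 0 => [1, 2, 4]
  | 1 => [0, 2, 5]
  | 2 => [0, 1, 3]
  | 3 => [2, 2 * d - 2, 2 * d - 1]
  | 4 => [0, 6, 7]
  | 5 => [1, 7, 8]
  | 6 => [4, 8, 9]
  | 7 => [4, 5, 9]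
  | 8 => [5, 6, 10]
  | 9 => [6, 7, 11]
  | k + 10 => [k + 8, if k % 2 = 0 then k + 11 else k + 9, if k + 12 < 2 * d then k + 12 else 3]

/-- adjacency in the base graph -/
def A (d u v : ℕ) : Prop := v ∈ nb d u

lemma A_ge {d u : ℕ} (hu : 10 ≤ u) (v : ℕ) : A d u v ↔ v + 2 = u ∨ (u % 2 = 0 ∧ v = u + 1) ∨
    (u % 2 = 1 ∧ v + 1 = u) ∨ (u + 2 < 2 * d ∧ v = u + 2) ∨ (2 * d ≤ u + 2 ∧ v = 3) := by
  obtain ⟨k, rfl⟩ : ∃ k, u = k + 10 := ⟨u - 10, by omega⟩
  simp only [A, nb, List.mem_cons, List.not_mem_nil, or_false]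
  split_ifs <;> omega

lemma A0 (d v : ℕ) : A d 0 v ↔ v = 1 ∨ v = 2 ∨ v = 4 := by simp [A, nb]
lemma A1 (d v : ℕ) : A d 1 v ↔ v = 0 ∨ v = 2 ∨ v = 5 := by simp [A, nb]
lemma A2 (d v : ℕ) : A d 2 v ↔ v = 0 ∨ v = 1 ∨ v = 3 := by simp [A, nb]
lemma A3 (d v : ℕ) : A d 3 v ↔ v = 2 ∨ v = 2 * d - 2 ∨ v = 2 * d - 1 := by simp [A, nb]
lemma A4 (d v : ℕ) : A d 4 v ↔ v = 0 ∨ v = 6 ∨ v = 7 := by simp [A, nb]
lemma A5 (d v : ℕ) : A d 5 v ↔ v = 1 ∨ v = 7 ∨ v = 8 := by simp [A, nb]
lemma A6 (d v : ℕ) : A d 6 v ↔ v = 4 ∨ v = 8 ∨ v = 9 := by simp [A, nb]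
lemma A7 (d v : ℕ) : A d 7 v ↔ v = 4 ∨ v = 5 ∨ v = 9 := by simp [A, nb]
lemma A8 (d v : ℕ) : A d 8 v ↔ v = 5 ∨ v = 6 ∨ v = 10 := by simp [A, nb]
lemma A9 (d v : ℕ) : A d 9 v ↔ v = 6 ∨ v = 7 ∨ v = 11 := by simp [A, nb]

lemma A_cases {d u v : ℕ} (h : A d u v) :
    (u = 0 ∧ (v = 1 ∨ v = 2 ∨ v = 4)) ∨ (u = 1 ∧ (v = 0 ∨ v = 2 ∨ v = 5)) ∨
    (u = 2 ∧ (v = 0 ∨ v = 1 ∨ v = 3)) ∨ (u = 3 ∧ (v = 2 ∨ v = 2 * d - 2 ∨ v = 2 * d - 1)) ∨
    (u = 4 ∧ (v = 0 ∨ v = 6 ∨ v = 7)) ∨ (u = 5 ∧ (v = 1 ∨ v = 7 ∨ v = 8)) ∨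
    (u = 6 ∧ (v = 4 ∨ v = 8 ∨ v = 9)) ∨ (u = 7 ∧ (v = 4 ∨ v = 5 ∨ v = 9)) ∨
    (u = 8 ∧ (v = 5 ∨ v = 6 ∨ v = 10)) ∨ (u = 9 ∧ (v = 6 ∨ v = 7 ∨ v = 11)) ∨
    (10 ≤ u ∧ (v + 2 = u ∨ (u % 2 = 0 ∧ v = u + 1) ∨
    (u % 2 = 1 ∧ v + 1 = u) ∨ (u + 2 < 2 * d ∧ v = u + 2) ∨ (2 * d ≤ u + 2 ∧ v = 3))) := by
  by_cases h10 : u < 10
  · interval_cases u <;> simp_all [A, nb]
  · rw [A_ge (by omega)] at h
    exact Or.inr <| Or.inr <| Or.inr <| Or.inr <| Or.inr <| Or.inr <| Or.inr <| Or.inr <|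
      Or.inr <| Or.inr ⟨by omega, h⟩

lemma A_symm {d u v : ℕ} (hd : 6 ≤ d) (hu : u < 2 * d) (h : A d u v) : A d v u := by
  have h1 := A_cases h
  by_cases h10 : v < 10
  · interval_cases v <;> simp only [A0, A1, A2, A3, A4, A5, A6, A7, A8, A9] <;> omega
  · rw [A_ge (by omega)]
    omega

lemma A_ne {d u v : ℕ} (hd : 6 ≤ d) (h : A d u v) : u ≠ v := by
  have h1 := A_cases h
  omega

lemma A_lt {d u v : ℕ} (hd : 6 ≤ d) (hu : u < 2 * d) (h : A d u v) : v < 2 * d := by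
  have h1 := A_cases h
  omega

variable {G : Type*} [Group G]

/-- voltage of an edge `u < v` -/
def psi (d : ℕ) (g : ℕ → G) (u v : ℕ) : G :=
  if u = 4 ∧ v = 7 then g 0 else if u = 6 ∧ v = 9 then g 1 else if u = 5 ∧ v = 8 then g 2
  else if u = 3 then g (v - d) else if 10 ≤ u ∧ v = u + 1 then g (u / 2 - 2) else 1

/-- voltage of an oriented edge -/
def phi (d : ℕ) (g : ℕ → G) (u v : ℕ) : G :=
  if u < v then psi d g u v else (psi d g v u)⁻¹

lemma phi_symm (d : ℕ) (g : ℕ → G) {u v : ℕ} (h : u ≠ v) : phi d g v u = (phi d g u v)⁻¹ := by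
  unfold phi
  by_cases h1 : u < v
  · rw [if_pos h1, if_neg (by omega)]
  · rw [if_neg h1, if_pos (by omega), inv_inv]

/-- the covering graph -/
def cover (d : ℕ) (hd : 6 ≤ d) (g : ℕ → G) : SimpleGraph (Fin (2 * d) × G) where
  Adj p r := A d p.1 r.1 ∧ r.2 = p.2 * phi d g p.1 r.1
  symm := ⟨fun p r h => ⟨A_symm hd p.1.2 h.1, by rw [phi_symm d g (A_ne hd h.1), h.2]; simp⟩⟩
  loopless := ⟨fun p h => A_ne hd h.1 rfl⟩

lemma exists_nbrs {d : ℕ} (hd : 6 ≤ d) (u : ℕ) (hu : u < 2 * d) :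
    ∃ a b c : ℕ, a < 2 * d ∧ b < 2 * d ∧ c < 2 * d ∧ a ≠ b ∧ a ≠ c ∧ b ≠ c ∧
      ∀ v, v < 2 * d → (A d u v ↔ v = a ∨ v = b ∨ v = c) := by
  have key : ∀ a b c : ℕ, (a < 2 * d ∧ b < 2 * d ∧ c < 2 * d ∧ a ≠ b ∧ a ≠ c ∧ b ≠ c) →
      (∀ v, v < 2 * d → (A d u v ↔ v = a ∨ v = b ∨ v = c)) →
      ∃ a b c : ℕ, a < 2 * d ∧ b < 2 * d ∧ c < 2 * d ∧ a ≠ b ∧ a ≠ c ∧ b ≠ c ∧
      ∀ v, v < 2 * d → (A d u v ↔ v = a ∨ v = b ∨ v = c) :=
    fun a b c h1 h2 => ⟨a, b, c, h1.1, h1.2.1, h1.2.2.1, h1.2.2.2.1, h1.2.2.2.2.1, h1.2.2.2.2.2, h2⟩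
  by_cases h10 : u < 10
  · interval_cases u
    · exact key 1 2 4 (by omega) (fun v _ => A0 d v)
    · exact key 0 2 5 (by omega) (fun v _ => A1 d v)
    · exact key 0 1 3 (by omega) (fun v _ => A2 d v)
    · exact key 2 (2 * d - 2) (2 * d - 1) (by omega) (fun v _ => A3 d v)
    · exact key 0 6 7 (by omega) (fun v _ => A4 d v)
    · exact key 1 7 8 (by omega) (fun v _ => A5 d v)
    · exact key 4 8 9 (by omega) (fun v _ => A6 d v)
    · exact key 4 5 9 (by omega) (fun v _ => A7 d v)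
    · exact key 5 6 10 (by omega) (fun v _ => A8 d v)
    · exact key 6 7 11 (by omega) (fun v _ => A9 d v)
  · by_cases h2 : u % 2 = 0
    · by_cases h3 : u + 2 = 2 * d
      · exact key (u - 2) (u + 1) 3 (by omega) (fun v hv => by rw [A_ge (by omega)]; omega)
      · exact key (u - 2) (u + 1) (u + 2) (by omega) (fun v hv => by rw [A_ge (by omega)]; omega)
    · by_cases h3 : u + 1 = 2 * d
      · exact key (u - 2) (u - 1) 3 (by omega) (fun v hv => by rw [A_ge (by omega)]; omega)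
      · exact key (u - 2) (u - 1) (u + 2) (by omega) (fun v hv => by rw [A_ge (by omega)]; omega)

lemma cover_ncard {d : ℕ} (hd : 6 ≤ d) (g : ℕ → G) (p : Fin (2 * d) × G) :
    ((cover d hd g).neighborSet p).ncard = 3 := by
  obtain ⟨a, b, c, ha, hb, hc, hab, hac, hbc, h⟩ := exists_nbrs hd p.1 p.1.2
  rw [Set.ncard_eq_three]
  refine ⟨(⟨a, ha⟩, p.2 * phi d g p.1 a), (⟨b, hb⟩, p.2 * phi d g p.1 b),
    (⟨c, hc⟩, p.2 * phi d g p.1 c), by simp [hab], by simp [hac], by simp [hbc], ?_⟩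
  ext ⟨v, y⟩
  simp only [SimpleGraph.mem_neighborSet, cover, Set.mem_insert_iff, Set.mem_singleton_iff,
    Prod.mk.injEq, Fin.ext_iff, h v v.2]
  constructor
  · rintro ⟨h1 | h1 | h1, h2⟩
    · exact Or.inl ⟨h1, by rw [h2, h1]⟩
    · exact Or.inr (Or.inl ⟨h1, by rw [h2, h1]⟩)
    · exact Or.inr (Or.inr ⟨h1, by rw [h2, h1]⟩)
  · rintro (⟨h1, h2⟩ | ⟨h1, h2⟩ | ⟨h1, h2⟩)
    · exact ⟨Or.inl h1, by rw [h2, h1]⟩
    · exact ⟨Or.inr (Or.inl h1), by rw [h2, h1]⟩
    · exact ⟨Or.inr (Or.inr h1), by rw [h2, h1]⟩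

section Good

variable {d : ℕ} {hd : 6 ≤ d} {g : ℕ → G}

/-- sets of base vertices whose preimage is invariant under all automorphisms -/
def Good (d : ℕ) (hd : 6 ≤ d) (g : ℕ → G) (S : ℕ → Prop) : Prop :=
  ∀ (α : cover d hd g ≃g cover d hd g) (p : Fin (2 * d) × G), S p.1 → S (α p).1

lemma Good.iff {S : ℕ → Prop} (h : Good d hd g S) (α : cover d hd g ≃g cover d hd g)
    (p : Fin (2 * d) × G) : S (α p).1 ↔ S p.1 :=
  ⟨fun h1 => by simpa using h α.symm (α p) h1, h α p⟩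

lemma Good.not {S : ℕ → Prop} (h : Good d hd g S) : Good d hd g (fun u => ¬ S u) :=
  fun α p h1 h2 => h1 ((h.iff α p).1 h2)

lemma Good.and {S T : ℕ → Prop} (h : Good d hd g S) (h' : Good d hd g T) :
    Good d hd g (fun u => S u ∧ T u) := fun α p h1 => ⟨h α p h1.1, h' α p h1.2⟩

lemma Good.or {S T : ℕ → Prop} (h : Good d hd g S) (h' : Good d hd g T) :
    Good d hd g (fun u => S u ∨ T u) := fun α p h1 => h1.imp (h α p) (h' α p)

lemma Good.congr {S T : ℕ → Prop} (h : Good d hd g S) (h' : ∀ u, u < 2 * d → (S u ↔ T u)) :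
    Good d hd g T := fun α p h1 => (h' _ (α p).1.2).1 (h α p ((h' _ p.1.2).2 h1))

lemma Good.nbr {S : ℕ → Prop} (h : Good d hd g S) :
    Good d hd g (fun u => ∃ v, v < 2 * d ∧ S v ∧ A d u v) := by
  rintro α p ⟨v, hv, hS, hA⟩
  have h1 : (cover d hd g).Adj p (⟨v, hv⟩, p.2 * phi d g p.1 v) := ⟨hA, rfl⟩
  have h2 := α.map_adj_iff.2 h1
  exact ⟨_, (α _).1.2, h α _ hS, h2.1⟩

lemma Good.nbr1 {c : ℕ} (h : Good d hd g (fun u => u = c)) (hc : c < 2 * d) :
    Good d hd g (fun u => A d c u) :=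
  h.nbr.congr fun _ hu => ⟨fun ⟨_, _, h1, h2⟩ => h1 ▸ A_symm hd hu h2,
    fun h1 => ⟨c, hc, rfl, A_symm hd hc h1⟩⟩

lemma Good.nbrL {L : List ℕ} (h : Good d hd g (fun u => u ∈ L)) (hc : ∀ c ∈ L, c < 2 * d) :
    Good d hd g (fun u => ∃ c ∈ L, A d c u) :=
  h.nbr.congr fun _ hu => ⟨fun ⟨v, _, h1, h2⟩ => ⟨v, h1, A_symm hd hu h2⟩,
    fun ⟨c, h1, h2⟩ => ⟨c, hc c h1, h1, A_symm hd (hc c h1) h2⟩⟩

lemma tri_small {u v w : ℕ} (hd : 6 ≤ d) (hw : w < 2 * d)
    (h1 : A d u v) (h2 : A d v w) (h3 : A d w u) (h : u < 3) : v < 3 := by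
  have h5 := A_symm hd hw h3
  interval_cases u <;> simp only [A0, A1, A2] at h1 h5 <;>
    rcases h1 with rfl | rfl | rfl <;> simp only [A0, A1, A2, A3, A4, A5] at h2 <;> omega

lemma tri_mid {u v w : ℕ} (hd : 6 ≤ d) (hw : w < 2 * d)
    (h1 : A d u v) (h2 : A d v w) (h3 : A d w u) (h : 4 ≤ u) (h' : u + 2 < 2 * d) : False := by
  have h5 := A_symm hd hw h3
  by_cases h10 : u < 10
  · interval_cases u <;> simp only [A4, A5, A6, A7, A8, A9] at h1 h5 <;>
      rcases h1 with rfl | rfl | rfl <;>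
      simp only [A0, A1, A2, A3, A4, A5, A6, A7, A8, A9, A_ge (le_refl 10),
        A_ge (by norm_num : 10 ≤ 11)] at h2 <;> omega
  · rw [A_ge (by omega)] at h1 h5
    by_cases hv : v < 10
    · have hv8 : 8 ≤ v := by omega
      interval_cases v <;> simp only [A8, A9] at h2 <;> omega
    · rw [A_ge (by omega)] at h2
      rcases h1 with h1 | h1 | h1 | h1 | h1 <;> rcases h5 with h5 | h5 | h5 | h5 | h5 <;> omega

lemma tri_base {u v w : ℕ} (hd : 6 ≤ d) (hu : u < 2 * d) (hv : v < 2 * d) (hw : w < 2 * d)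
    (h1 : A d u v) (h2 : A d v w) (h3 : A d w u) :
    u < 3 ∨ (u = 3 ∧ v = 2 * d - 2 ∧ w = 2 * d - 1) ∨ (u = 3 ∧ v = 2 * d - 1 ∧ w = 2 * d - 2)
      ∨ (u = 2 * d - 2 ∧ v = 3 ∧ w = 2 * d - 1) ∨ (u = 2 * d - 2 ∧ v = 2 * d - 1 ∧ w = 3)
      ∨ (u = 2 * d - 1 ∧ v = 3 ∧ w = 2 * d - 2) ∨ (u = 2 * d - 1 ∧ v = 2 * d - 2 ∧ w = 3) := by
  by_cases h : u < 3
  · exact Or.inl h
  right
  have s1 := tri_small hd hv h3 h1 h2
  have s2 := tri_small hd hu h2 h3 h1
  have m1 := tri_mid hd hw h1 h2 h3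
  have m2 := tri_mid hd hu h2 h3 h1
  have m3 := tri_mid hd hv h3 h1 h2
  have n1 := A_ne hd h1
  have n2 := A_ne hd h2
  have n3 := A_ne hd h3
  have cu : u = 3 ∨ u = 2 * d - 2 ∨ u = 2 * d - 1 := by
    by_contra hc; exact m1 (by omega) (by omega)
  have cv : v = 3 ∨ v = 2 * d - 2 ∨ v = 2 * d - 1 := by
    by_contra hc; exact m2 (by omega) (by omega)
  have cw : w = 3 ∨ w = 2 * d - 2 ∨ w = 2 * d - 1 := by
    by_contra hc; exact m3 (by omega) (by omega)
  clear s1 s2 m1 m2 m3 h1 h2 h3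
  rcases cu with rfl | rfl | rfl <;> rcases cv with rfl | rfl | rfl <;>
    rcases cw with rfl | rfl | rfl <;> simp_all

lemma phi_a (hd : 6 ≤ d) : phi d g 3 (2 * d - 2) = g (d - 2) := by
  unfold phi psi
  rw [if_pos (by omega), if_neg (by omega), if_neg (by omega), if_neg (by omega), if_pos rfl]
  congr 1; omega

lemma phi_b (hd : 6 ≤ d) : phi d g 3 (2 * d - 1) = g (d - 1) := by
  unfold phi psi
  rw [if_pos (by omega), if_neg (by omega), if_neg (by omega), if_neg (by omega), if_pos rfl]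
  congr 1; omega

lemma phi_rung {k : ℕ} (hk : 5 ≤ k) : phi d g (2 * k) (2 * k + 1) = g (k - 2) := by
  unfold phi psi
  rw [if_pos (by omega), if_neg (by omega), if_neg (by omega), if_neg (by omega),
    if_neg (by omega), if_pos (by omega)]
  congr 1; omega

lemma phi_c (hd : 6 ≤ d) : phi d g (2 * d - 2) (2 * d - 1) = g (d - 3) := by
  have := phi_rung (d := d) (g := g) (k := d - 1) (by omega)
  rw [show 2 * (d - 1) = 2 * d - 2 by omega, show 2 * d - 2 + 1 = 2 * d - 1 by omega,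
    show d - 1 - 2 = d - 3 by omega] at this
  exact this

lemma tri_voltage (hd : 6 ≤ d) {u v w : ℕ}
    (hcases : (u = 3 ∧ v = 2 * d - 2 ∧ w = 2 * d - 1) ∨ (u = 3 ∧ v = 2 * d - 1 ∧ w = 2 * d - 2)
      ∨ (u = 2 * d - 2 ∧ v = 3 ∧ w = 2 * d - 1) ∨ (u = 2 * d - 2 ∧ v = 2 * d - 1 ∧ w = 3)
      ∨ (u = 2 * d - 1 ∧ v = 3 ∧ w = 2 * d - 2) ∨ (u = 2 * d - 1 ∧ v = 2 * d - 2 ∧ w = 3))
    (hprod : phi d g u v * phi d g v w * phi d g w u = 1) :
    g (d - 1) = g (d - 2) * g (d - 3) := by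
  have pa := phi_a (g := g) hd
  have pb := phi_b (g := g) hd
  have pc := phi_c (g := g) hd
  have pa' := phi_symm d g (by omega : 3 ≠ 2 * d - 2)
  have pb' := phi_symm d g (by omega : 3 ≠ 2 * d - 1)
  have pc' := phi_symm d g (by omega : 2 * d - 2 ≠ 2 * d - 1)
  rw [pa] at pa'
  rw [pb] at pb'
  rw [pc] at pc'
  generalize g (d - 1) = x at *
  generalize g (d - 2) = y at *
  generalize g (d - 3) = z at *
  rcases hcases with ⟨h1, h2, h3⟩ | ⟨h1, h2, h3⟩ | ⟨h1, h2, h3⟩ | ⟨h1, h2, h3⟩ |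
    ⟨h1, h2, h3⟩ | ⟨h1, h2, h3⟩ <;> rw [h1, h2, h3] at hprod
  · rw [pa, pc, pb'] at hprod
    calc x = (y * z * x⁻¹) * x := by rw [hprod, one_mul]
      _ = y * z := by group
  · rw [pb, pc', pa'] at hprod
    calc x = (x * z⁻¹ * y⁻¹) * (y * z) := by group
      _ = y * z := by rw [hprod, one_mul]
  · rw [pa', pb, pc'] at hprod
    calc x = y * (y⁻¹ * x * z⁻¹) * z := by group
      _ = y * z := by rw [hprod, mul_one]
  · rw [pc, pb', pa] at hprod
    calc x = y * (z * x⁻¹ * y) * y⁻¹ * x := by rw [hprod]; group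
      _ = y * z := by group
  · rw [pb', pa, pc] at hprod
    calc x = x * (x⁻¹ * y * z) := by rw [hprod, mul_one]
      _ = y * z := by group
  · rw [pc', pa', pb] at hprod
    calc x = y * z * (z⁻¹ * y⁻¹ * x) := by group
      _ = y * z := by rw [hprod, mul_one]

lemma good_tri (hg : g (d - 1) ≠ g (d - 2) * g (d - 3)) : Good d hd g (fun u => u ∈ [0, 1, 2]) := by
  have key : ∀ p : Fin (2 * d) × G, ((p.1 : ℕ) ∈ [0, 1, 2]) ↔
      ∃ q r, (cover d hd g).Adj p q ∧ (cover d hd g).Adj q r ∧ (cover d hd g).Adj r p := by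
    rintro ⟨⟨u, hu⟩, x⟩
    simp only [List.mem_cons, List.not_mem_nil, or_false]
    constructor
    · rintro (rfl | rfl | rfl)
      · exact ⟨(⟨1, by omega⟩, x), (⟨2, by omega⟩, x), ⟨by simp [A, nb], by simp [phi, psi]⟩,
          ⟨by simp [A, nb], by simp [phi, psi]⟩, ⟨by simp [A, nb], by simp [phi, psi]⟩⟩
      · exact ⟨(⟨2, by omega⟩, x), (⟨0, by omega⟩, x), ⟨by simp [A, nb], by simp [phi, psi]⟩,
          ⟨by simp [A, nb], by simp [phi, psi]⟩, ⟨by simp [A, nb], by simp [phi, psi]⟩⟩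
      · exact ⟨(⟨0, by omega⟩, x), (⟨1, by omega⟩, x), ⟨by simp [A, nb], by simp [phi, psi]⟩,
          ⟨by simp [A, nb], by simp [phi, psi]⟩, ⟨by simp [A, nb], by simp [phi, psi]⟩⟩
    · rintro ⟨⟨⟨v, hv⟩, y⟩, ⟨⟨w, hw⟩, z⟩, ⟨h1, e1⟩, ⟨h2, e2⟩, ⟨h3, e3⟩⟩
      simp only at h1 h2 h3 e1 e2 e3
      rcases tri_base hd hu hv hw h1 h2 h3 with h | h
      · omega
      refine (hg (tri_voltage hd h ?_)).elim
      have : x * (phi d g u v * phi d g v w * phi d g w u) = x * 1 := by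
        rw [mul_one, ← mul_assoc, ← mul_assoc, ← e1, ← e2, ← e3]
      exact mul_left_cancel this
  intro α p hp
  obtain ⟨q, r, h1, h2, h3⟩ := (key p).1 hp
  exact (key (α p)).2 ⟨α q, α r, α.map_adj_iff.2 h1, α.map_adj_iff.2 h2, α.map_adj_iff.2 h3⟩

theorem good_single (hg : g (d - 1) ≠ g (d - 2) * g (d - 3)) (c : ℕ) (hc : c < 2 * d) :
    Good d hd g (fun u => u = c) := by
  have T := good_tri (hd := hd) hg
  have e1 : 10 ≤ 2 * d - 2 := by omega
  have e2 : 10 ≤ 2 * d - 1 := by omega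
  have D1 : Good d hd g (fun u => u ∈ [3, 4, 5]) :=
    ((T.nbrL (by simp; omega)).and T.not).congr fun u hu => by
      simp only [List.mem_cons, List.not_mem_nil, or_false, exists_eq_or_imp, exists_eq_left,
        A0, A1, A2, A3, A4, A5, A6, A7, A8, A9, A_ge e1, A_ge e2]
      omega
  have D2 : Good d hd g (fun u => u ∈ [6, 7, 8, 2 * d - 2, 2 * d - 1]) :=
    ((D1.nbrL (by simp; omega)).and T.not).congr fun u hu => by
      simp only [List.mem_cons, List.not_mem_nil, or_false, exists_eq_or_imp, exists_eq_left,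
        A0, A1, A2, A3, A4, A5, A6, A7, A8, A9, A_ge e1, A_ge e2]
      omega
  have v7 : Good d hd g (fun u => u = 7) :=
    (D2.and (D2.nbrL (by simp; omega)).not).congr fun u hu => by
      simp only [List.mem_cons, List.not_mem_nil, or_false, exists_eq_or_imp, exists_eq_left,
        A0, A1, A2, A3, A4, A5, A6, A7, A8, A9, A_ge e1, A_ge e2]
      omega
  have v3 : Good d hd g (fun u => u = 3) :=
    (D1.and (v7.nbr1 (by omega)).not).congr fun u hu => by
      simp only [List.mem_cons, List.not_mem_nil, or_false, A0, A1, A2, A3, A4, A5, A6, A7, A8, A9]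
      omega
  have v2 : Good d hd g (fun u => u = 2) :=
    (T.and (v3.nbr1 (by omega))).congr fun u hu => by
      simp only [List.mem_cons, List.not_mem_nil, or_false, A0, A1, A2, A3, A4, A5, A6, A7, A8, A9]
      omega
  have v9 : Good d hd g (fun u => u = 9) :=
    (D1.not.and (v7.nbr1 (by omega))).congr fun u hu => by
      simp only [List.mem_cons, List.not_mem_nil, or_false, A0, A1, A2, A3, A4, A5, A6, A7, A8, A9]
      omega
  have v6 : Good d hd g (fun u => u = 6) :=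
    ((D2.and v7.not).and ((v9.nbr1 (by omega)).and (v3.nbr1 (by omega)).not)).congr fun u hu => by
      simp only [List.mem_cons, List.not_mem_nil, or_false, A0, A1, A2, A3, A4, A5, A6, A7, A8, A9]
      omega
  have v8 : Good d hd g (fun u => u = 8) :=
    ((D2.and v7.not).and (v6.not.and (v3.nbr1 (by omega)).not)).congr fun u hu => by
      simp only [List.mem_cons, List.not_mem_nil, or_false, A0, A1, A2, A3, A4, A5, A6, A7, A8, A9]
      omega
  have v4 : Good d hd g (fun u => u = 4) :=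
    (D1.and (v6.nbr1 (by omega))).congr fun u hu => by
      simp only [List.mem_cons, List.not_mem_nil, or_false, A0, A1, A2, A3, A4, A5, A6, A7, A8, A9]
      omega
  have v5 : Good d hd g (fun u => u = 5) :=
    (D1.and (v8.nbr1 (by omega))).congr fun u hu => by
      simp only [List.mem_cons, List.not_mem_nil, or_false, A0, A1, A2, A3, A4, A5, A6, A7, A8, A9]
      omega
  have v0 : Good d hd g (fun u => u = 0) :=
    (T.and (v4.nbr1 (by omega))).congr fun u hu => by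
      simp only [List.mem_cons, List.not_mem_nil, or_false, A0, A1, A2, A3, A4, A5, A6, A7, A8, A9]
      omega
  have v1 : Good d hd g (fun u => u = 1) :=
    (T.and (v5.nbr1 (by omega))).congr fun u hu => by
      simp only [List.mem_cons, List.not_mem_nil, or_false, A0, A1, A2, A3, A4, A5, A6, A7, A8, A9]
      omega
  have v10 : Good d hd g (fun u => u = 10) :=
    ((v8.nbr1 (by omega)).and (v5.not.and v6.not)).congr fun u hu => by
      simp only [A8, A9]
      omega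
  have v11 : Good d hd g (fun u => u = 11) :=
    ((v9.nbr1 (by omega)).and (v7.not.and v6.not)).congr fun u hu => by
      simp only [A8, A9]
      omega
  induction c using Nat.strong_induction_on with
  | _ c ih =>
    by_cases h12 : c < 12
    · interval_cases c <;> assumption
    · by_cases h2 : c % 2 = 0
      · exact (((ih (c - 2) (by omega) (by omega)).nbr1 (by omega)).and
          ((ih (c - 4) (by omega) (by omega)).not.and
            (ih (c - 1) (by omega) (by omega)).not)).congr fun u hu => by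
          rw [A_ge (by omega)]
          omega
      · exact (((ih (c - 2) (by omega) (by omega)).nbr1 (by omega)).and
          ((ih (c - 4) (by omega) (by omega)).not.and
            (ih (c - 3) (by omega) (by omega)).not)).congr fun u hu => by
          rw [A_ge (by omega)]
          omega

end Good

section Conn

variable {d : ℕ} (hd : 6 ≤ d) (g : ℕ → G)

include hd in
/-- a set closed under adjacency which contains one point over `0` contains everything -/
theorem closed_all (hgen : Subgroup.closure (g '' {i | i < d}) = ⊤) (P : ℕ → G → Prop)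
    (hP : ∀ u v x, u < 2 * d → v < 2 * d → A d u v → P u x → P v (x * phi d g u v))
    (h0 : P 0 1) : ∀ u x, u < 2 * d → P u x := by
  have hP' : ∀ u v x, u < 2 * d → v < 2 * d → A d u v → (P u x ↔ P v (x * phi d g u v)) := by
    intro u v x hu hv h
    refine ⟨hP u v x hu hv h, fun h1 => ?_⟩
    have := hP v u _ hv hu (A_symm hd hu h) h1
    rwa [phi_symm d g (A_ne hd h), mul_inv_cancel_right] at this
  have tree : ∀ u, u < 2 * d → ∀ x, (P 0 x ↔ P u x) := by
    intro u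
    induction u using Nat.strong_induction_on with
    | _ u ih =>
      intro hu x
      have step : ∀ v, v < u → A d v u → phi d g v u = 1 → (P 0 x ↔ P u x) := by
        intro v hv h1 h2
        have := hP' v u x (by omega) hu h1
        rw [h2, mul_one] at this
        rw [← this]
        exact ih v hv (by omega) x
      by_cases h6 : u < 6
      · interval_cases u
        · rfl
        · exact step 0 (by omega) (by simp [A, nb]) (by simp [phi, psi])
        · exact step 0 (by omega) (by simp [A, nb]) (by simp [phi, psi])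
        · exact step 2 (by omega) (by simp [A, nb]) (by simp [phi, psi])
        · exact step 0 (by omega) (by simp [A, nb]) (by simp [phi, psi])
        · exact step 1 (by omega) (by simp [A, nb]) (by simp [phi, psi])
      · refine step (u - 2) (by omega) (A_symm hd hu ?_) ?_
        · by_cases h10 : u < 10
          · interval_cases u <;> simp [A, nb]
          · rw [A_ge (by omega)]; omega
        unfold phi psi
        rw [if_pos (by omega), if_neg (by omega), if_neg (by omega), if_neg (by omega),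
          if_neg (by omega), if_neg (by omega)]
  have gen : ∀ i, i < d → ∀ x, (P 0 x ↔ P 0 (x * g i)) := by
    intro i hi x
    have step : ∀ u v, u < 2 * d → v < 2 * d → A d u v → phi d g u v = g i →
        (P 0 x ↔ P 0 (x * g i)) := by
      intro u v hu hv h1 h2
      rw [tree u hu x, tree v hv, ← h2]
      exact hP' u v x hu hv h1
    by_cases h3 : i < 3
    · interval_cases i
      · exact step 4 7 (by omega) (by omega) (by simp [A, nb]) (by simp [phi, psi])
      · exact step 6 9 (by omega) (by omega) (by simp [A, nb]) (by simp [phi, psi])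
      · exact step 5 8 (by omega) (by omega) (by simp [A, nb]) (by simp [phi, psi])
    · by_cases h4 : i = d - 2
      · exact step 3 (2 * d - 2) (by omega) (by omega) (by simp [A, nb])
          (by rw [h4]; exact phi_a hd)
      · by_cases h5 : i = d - 1
        · exact step 3 (2 * d - 1) (by omega) (by omega) (by simp [A, nb])
            (by rw [h5]; exact phi_b hd)
        · exact step (2 * (i + 2)) (2 * (i + 2) + 1) (by omega) (by omega)
            (by rw [A_ge (by omega)]; omega) (by rw [phi_rung (by omega)]; rfl)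
  have all : ∀ y, y ∈ Subgroup.closure (g '' {i | i < d}) → ∀ x, (P 0 x ↔ P 0 (x * y)) := by
    intro y hy
    induction hy using Subgroup.closure_induction with
    | mem y hy => obtain ⟨i, hi, rfl⟩ := hy; exact gen i hi
    | one => intro x; rw [mul_one]
    | mul y z _ _ h1 h2 => intro x; rw [h1 x, h2 (x * y), mul_assoc]
    | inv y _ h1 => intro x; rw [h1 (x * y⁻¹), inv_mul_cancel_right]
  intro u x hu
  rw [← tree u hu]
  have := (all x (by rw [hgen]; trivial) 1).1 h0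
  rwa [one_mul] at this

/-- deck transformations -/
def deck : G →* (cover d hd g ≃g cover d hd g) where
  toFun h :=
    { toEquiv := (Equiv.refl _).prodCongr (Equiv.mulLeft h)
      map_rel_iff' := by
        intro p r
        simp [cover, mul_assoc] }
  map_one' := by ext p <;> simp
  map_mul' h k := by ext p <;> simp [RelIso.mul_apply, mul_assoc]

lemma deck_apply (h : G) (p : Fin (2 * d) × G) : deck hd g h p = (p.1, h * p.2) := rfl

theorem deck_bijective (hgen : Subgroup.closure (g '' {i | i < d}) = ⊤)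
    (hg : g (d - 1) ≠ g (d - 2) * g (d - 3)) : Function.Bijective (deck hd g) := by
  have h0 : 0 < 2 * d := by omega
  constructor
  · intro h k hk
    have := congrArg (fun α : cover d hd g ≃g cover d hd g => (α (⟨0, h0⟩, 1)).2) hk
    simpa [deck_apply] using this
  · intro α
    have fib : ∀ p : Fin (2 * d) × G, (α p).1 = p.1 := fun p =>
      Fin.ext (good_single (hd := hd) hg p.1 p.1.2 α p rfl)
    refine ⟨(α (⟨0, h0⟩, 1)).2, ?_⟩
    have key := closed_all hd g hgen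
      (fun u x => ∀ hu : u < 2 * d, (α (⟨u, hu⟩, x)).2 = (α (⟨0, h0⟩, 1)).2 * x) ?_
      (fun _ => by rw [mul_one])
    · ext1 ⟨⟨u, hu⟩, x⟩
      rw [deck_apply]
      exact Prod.ext (fib (⟨u, hu⟩, x)).symm (key u x hu hu).symm
    · intro u v x hu hv hA h1 _
      have h2 : (cover d hd g).Adj (⟨u, hu⟩, x) (⟨v, hv⟩, x * phi d g u v) := ⟨hA, rfl⟩
      have h3 := (α.map_adj_iff.2 h2).2
      rw [h3, fib, fib, h1 hu, mul_assoc]

end Conn

theorem exists_gens (G : Type*) [Group G] [Finite G] (hd : 6 ≤ Group.rank G) :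
    ∃ g : ℕ → G, Subgroup.closure (g '' {i | i < Group.rank G}) = ⊤ ∧
      g (Group.rank G - 1) ≠ g (Group.rank G - 2) * g (Group.rank G - 3) := by
  classical
  obtain ⟨S, hS, hgen⟩ := Group.rank_spec G
  set d := Group.rank G with hd'
  let e : Fin d ≃ S := (S.equivFinOfCardEq hS).symm
  let g : ℕ → G := fun i => if h : i < d then e ⟨i, h⟩ else 1
  have himg : g '' {i | i < d} = S := by
    ext x
    constructor
    · rintro ⟨i, hi, rfl⟩
      simp only [g, dif_pos (show i < d from hi)]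
      exact (e _).2
    · intro hx
      refine ⟨(e.symm ⟨x, hx⟩ : ℕ), (e.symm ⟨x, hx⟩).2, ?_⟩
      simp [g]
  refine ⟨g, by rw [himg, hgen], fun h => ?_⟩
  have h1 : Subgroup.closure (((Finset.range (d - 1)).image g : Finset G) : Set G) = ⊤ := by
    rw [eq_top_iff, ← hgen, ← himg, Subgroup.closure_le]
    rintro _ ⟨i, hi, rfl⟩
    have mem : ∀ j, j < d - 1 → g j ∈
        Subgroup.closure (((Finset.range (d - 1)).image g : Finset G) : Set G) := fun j hj =>
      Subgroup.subset_closure (by simpa using ⟨j, hj, rfl⟩)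
    by_cases h2 : i < d - 1
    · exact mem i h2
    · have : i = d - 1 := by simp only [Set.mem_ofPred_eq] at hi; omega
      rw [this, h]
      exact mul_mem (mem _ (by omega)) (mem _ (by omega))
  have h2 := Group.rank_le h1
  have h3 : ((Finset.range (d - 1)).image g).card ≤ d - 1 :=
    Finset.card_image_le.trans (by simp)
  omega

end Pool.Agent.Lib.MP_b549f0_co
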