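import Mathlib

/-! The Heisenberg groups over the field with three elements. -/

namespace Pool.Agent.Lib.MP_b549f0_co

/-- the extraspecial group of exponent three and order `3 ^ (2 * k + 1)` -/
@[ext] structure Heis (k : ℕ) : Type where
  x : Fin k → ZMod 3
  y : Fin k → ZMod 3
  z : ZMod 3

namespace Heis

variable {k : ℕ}

instance : Mul (Heis k) := ⟨fun a b => ⟨a.x + b.x, a.y + b.y, a.z + b.z + a.x ⬝ᵥ b.y⟩⟩
instance : One (Heis k) := ⟨⟨0, 0, 0⟩⟩
instance : Inv (Heis k) := ⟨fun a => ⟨-a.x, -a.y, -a.z + a.x ⬝ᵥ a.y⟩⟩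

@[simp] lemma mul_x (a b : Heis k) : (a * b).x = a.x + b.x := rfl
@[simp] lemma mul_y (a b : Heis k) : (a * b).y = a.y + b.y := rfl
@[simp] lemma mul_z (a b : Heis k) : (a * b).z = a.z + b.z + a.x ⬝ᵥ b.y := rfl
@[simp] lemma one_x : (1 : Heis k).x = 0 := rfl
@[simp] lemma one_y : (1 : Heis k).y = 0 := rfl
@[simp] lemma one_z : (1 : Heis k).z = 0 := rfl
@[simp] lemma inv_x (a : Heis k) : a⁻¹.x = -a.x := rfl
@[simp] lemma inv_y (a : Heis k) : a⁻¹.y = -a.y := rfl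
@[simp] lemma inv_z (a : Heis k) : a⁻¹.z = -a.z + a.x ⬝ᵥ a.y := rfl

instance : Group (Heis k) := Group.ofLeftAxioms
  (fun a b c => by
    refine Heis.ext (add_assoc _ _ _) (add_assoc _ _ _) ?_
    simp only [mul_x, mul_y, mul_z, add_dotProduct, dotProduct_add]
    ring)
  (fun a => by ext <;> simp) (fun a => by ext <;> simp)

instance : Finite (Heis k) :=
  Finite.of_injective (fun a : Heis k => (a.x, a.y, a.z)) fun a b h => by
    simp only [Prod.mk.injEq] at h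
    exact Heis.ext h.1 h.2.1 h.2.2

instance : Nontrivial (Heis k) := ⟨⟨⟨0, 0, 1⟩, 1, fun h => by
  have : (1 : ZMod 3) = 0 := congrArg Heis.z h
  exact absurd this (by decide)⟩⟩

lemma cube (a : Heis k) : a ^ 3 = 1 := by
  have h : ∀ r : ZMod 3, r + r + r = 0 := by decide
  rw [pow_succ, pow_two]
  ext i
  · exact h _
  · exact h _
  · simp only [mul_x, mul_z, add_dotProduct, one_z]
    linear_combination h a.z + h (a.x ⬝ᵥ a.y)

lemma odd : Odd (Nat.card (Heis k)) := by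
  have : Fact (Nat.Prime 3) := ⟨Nat.prime_three⟩
  obtain ⟨n, hn⟩ := IsPGroup.iff_card.1 (fun g => ⟨1, cube g⟩ : IsPGroup 3 (Heis k))
  rw [hn]
  exact Odd.pow (by decide)

lemma centre_mem {A : Subgroup (Heis k)} (hA : A.Normal) (h : A ≠ ⊥) : ⟨0, 0, 1⟩ ∈ A := by
  have key : ∀ c : ZMod 3, c ≠ 0 → (⟨0, 0, c⟩ : Heis k) ∈ A → (⟨0, 0, 1⟩ : Heis k) ∈ A := by
    intro c hc hm
    rcases (by decide : ∀ c : ZMod 3, c ≠ 0 → c = 1 ∨ -c = 1) c hc with rfl | e
    · exact hm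
    · have : (⟨0, 0, c⟩ : Heis k)⁻¹ = ⟨0, 0, 1⟩ := by ext <;> simp [e]
      exact this ▸ inv_mem hm
  obtain ⟨⟨a, ha⟩, h1⟩ := Subgroup.ne_bot_iff_exists_ne_one.1 h
  have com : ∀ b : Heis k, (⟨0, 0, b.x ⬝ᵥ a.y - a.x ⬝ᵥ b.y⟩ : Heis k) ∈ A := fun b => by
    have : b * a * b⁻¹ * a⁻¹ = ⟨0, 0, b.x ⬝ᵥ a.y - a.x ⬝ᵥ b.y⟩ := by
      ext <;> simp
      ring
    exact this ▸ mul_mem (hA.conj_mem a ha b) (inv_mem ha)
  by_cases hy : a.y = 0
  · by_cases hx : a.x = 0
    · have e : a = ⟨0, 0, a.z⟩ := Heis.ext hx hy rfl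
      exact key a.z (fun h0 => h1 (Subtype.ext (Heis.ext hx hy h0))) (e ▸ ha)
    · obtain ⟨i, hi⟩ := Function.ne_iff.1 hx
      exact key _ (by simpa using hi) (com ⟨0, Pi.single i 1, 0⟩)
  · obtain ⟨i, hi⟩ := Function.ne_iff.1 hy
    exact key _ (by simpa using hi) (com ⟨Pi.single i 1, 0, 0⟩)

lemma indec (A B : Subgroup (Heis k)) (hA : A.Normal) (hB : B.Normal) (h : IsCompl A B) :
    A = ⊥ ∨ B = ⊥ := by
  by_contra hn
  rw [not_or] at hn
  have := (Subgroup.disjoint_def.1 h.disjoint) (centre_mem hA hn.1) (centre_mem hB hn.2)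
  have : (1 : ZMod 3) = 0 := congrArg Heis.z this
  exact absurd this (by decide)

lemma le_rank : k ≤ Group.rank (Heis k) := by
  let f : Heis k →* Multiplicative (Fin k → ZMod 3) :=
    { toFun := fun a => Multiplicative.ofAdd a.x
      map_one' := rfl
      map_mul' := fun _ _ => rfl }
  have hf : Function.Surjective f := fun v => ⟨⟨v.toAdd, 0, 0⟩, rfl⟩
  refine le_trans ?_ (Group.rank_le_of_surjective f hf)
  have := card_dvd_exponent_pow_rank' (Multiplicative (Fin k → ZMod 3)) (n := 3) fun v => by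
    obtain ⟨a, rfl⟩ := hf v
    rw [← map_pow, cube, map_one]
  rw [Nat.card_eq_fintype_card, Fintype.card_multiplicative, Fintype.card_fun, ZMod.card,
    Fintype.card_fin] at this
  exact (Nat.pow_dvd_pow_iff_le_right (by omega)).1 this

end Heis

end Pool.Agent.Lib.MP_b549f0_co
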