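import Mathlib

/-!
A group of odd order acting faithfully on a connected cubic graph: generators from a connected
transversal, with the Euler characteristic count.
-/

namespace Pool.Agent.Lib.MP_b549f0_co

open MulAction

variable {G V : Type*} [Group G] [MulAction G V] {X : SimpleGraph V}

lemma fix_of_sq [Finite G] (ho : Odd (Nat.card G)) {g : G} {c : V} (h : g • g • c = c) :
    g • c = c := by
  obtain ⟨k, hk⟩ := ho
  have h1 : ∀ m : ℕ, (g * g) ^ m • c = c := fun m =>
    (stabilizer G c).pow_mem (show (g * g) • c = c by rw [mul_smul, h]) m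
  have h2 : g = (g * g) ^ (k + 1) := by
    rw [← pow_two, ← pow_mul, show 2 * (k + 1) = 2 * k + 1 + 1 by ring, pow_succ, ← hk,
      pow_card_eq_one', one_mul]
  rw [h2]
  exact h1 _

lemma reach_ind {v0 : V} {P : V → Prop} (h0 : P v0)
    (hs : ∀ u w, X.Reachable v0 u → P u → X.Adj u w → P w) {v : V} (hv : X.Reachable v0 v) :
    P v := by
  rw [SimpleGraph.reachable_iff_reflTransGen] at hv
  induction hv with
  | refl => exact h0
  | tail h1 h2 ih => exact hs _ _ ((X.reachable_iff_reflTransGen _ _).2 h1) ih h2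

lemma three {N : Set V} (hN : N.ncard = 3) {a b c d : V} (ha : a ∈ N) (hb : b ∈ N) (hc : c ∈ N)
    (hd : d ∈ N) (h1 : a ≠ b) (h2 : a ≠ c) (h3 : b ≠ c) : d = a ∨ d = b ∨ d = c := by
  obtain ⟨x, y, z, -, -, -, rfl⟩ := Set.ncard_eq_three.1 hN
  simp only [Set.mem_insert_iff, Set.mem_singleton_iff] at ha hb hc hd
  grind

/-- the standing assumptions: a faithful action on the component of `v0` -/
structure Act (G : Type*) [Group G] [MulAction G V] (X : SimpleGraph V) (v0 : V) : Prop where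
  odd : Odd (Nat.card G)
  deg : ∀ v, (X.neighborSet v).ncard = 3
  adj : ∀ (g : G) a b, X.Adj a b → X.Adj (g • a) (g • b)
  inv : ∀ (g : G) v, X.Reachable v0 v → X.Reachable v0 (g • v)
  faith : ∀ g : G, (∀ v, X.Reachable v0 v → g • v = v) → g = 1

variable [Finite G] {v0 : V}

lemma Act.free (h : Act G X v0) {g : G} {a b : V} (ha : X.Reachable v0 a) (hab : X.Adj a b)
    (h1 : g • a = a) (h2 : g • b = b) : g = 1 := by
  have key : ∀ a b, X.Adj a b → g • a = a → g • b = b → ∀ c, X.Adj a c → g • c = c := by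
    intro a b hab h1 h2 c hc
    by_contra h3
    have m : ∀ c, X.Adj a c → X.Adj a (g • c) := fun c hc => by simpa [h1] using h.adj g a c hc
    have n1 : b ≠ c := fun e => h3 (e ▸ h2)
    have n2 : ∀ c, b ≠ c → b ≠ g • c := fun c n e => n (smul_left_cancel g (h2.trans e))
    rcases three (h.deg a) hab hc (m c hc) (m _ (m c hc)) n1 (n2 c n1) (Ne.symm h3) with e | e | e
    · exact n2 _ (n2 c n1) e.symm
    · exact h3 (fix_of_sq h.odd e)
    · exact h3 (smul_left_cancel g e)
  refine h.faith g fun v hv => ?_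
  refine (reach_ind (P := fun v => g • v = v ∧ ∀ c, X.Adj v c → g • c = c)
    ⟨h1, key a b hab h1 h2⟩ (fun u w _ hu huw => ?_) (ha.symm.trans hv)).1
  exact ⟨hu.2 w huw, key w u huw.symm (hu.2 w huw) hu.1⟩

lemma Act.stab (h : Act G X v0) {t : V} (ht : X.Reachable v0 t) {s : G} (hs : s • t = t)
    (h1 : s ≠ 1) : orderOf s = 3 ∧ (∀ g : G, g • t = t → g ∈ Subgroup.zpowers s) ∧
      ∃ w, X.Adj t w ∧ ∀ c, X.Adj t c → ∃ g : G, g • t = t ∧ g • w = c := by
  obtain ⟨w, y, z, -, -, -, e⟩ := Set.ncard_eq_three.1 (h.deg t)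
  have hw : X.Adj t w := by
    have : w ∈ X.neighborSet t := by rw [e]; simp
    exact this
  have m : ∀ g : G, g • t = t → ∀ c, X.Adj t c → X.Adj t (g • c) := fun g hg c hc => by
    simpa [hg] using h.adj g t c hc
  have n1 : w ≠ s • w := fun e => h1 (h.free ht hw hs e.symm)
  have n2 : w ≠ s • s • w := fun e => n1 (fix_of_sq h.odd e.symm).symm
  have n3 : s • w ≠ s • s • w := fun e => n1 (smul_left_cancel s e)
  have all : ∀ c, X.Adj t c → c = w ∨ c = s • w ∨ c = s • s • w := fun c hc =>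
    three (h.deg t) hw (m s hs w hw) (m s hs _ (m s hs w hw)) hc n1 n2 n3
  have s2 : (s * s) • t = t := by rw [mul_smul, hs, hs]
  refine ⟨?_, fun g hg => ?_, w, hw, fun c hc => ?_⟩
  · have : Fact (Nat.Prime 3) := ⟨Nat.prime_three⟩
    refine orderOf_eq_prime (h.free ht hw ((stabilizer G t).pow_mem hs 3) ?_) h1
    rcases all _ (m s hs _ (m s hs _ (m s hs w hw))) with e | e | e
    · simpa [pow_succ, mul_smul] using e
    · exact (n2 (smul_left_cancel s e).symm).elim
    · exact (n3 (smul_left_cancel s e).symm).elim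
  · have k : ∀ u : G, u • t = t → g • w = u • w → g = u := fun u hu e => by
      have := h.free (g := u⁻¹ * g) ht hw (by rw [mul_smul, hg, inv_smul_eq_iff, hu])
        (by rw [mul_smul, e, inv_smul_smul])
      exact (inv_mul_eq_one.1 this).symm
    rcases all _ (m g hg w hw) with e | e | e
    · rw [k 1 (one_smul _ _) (by rw [e, one_smul])]; exact one_mem _
    · rw [k s hs e]; exact Subgroup.mem_zpowers s
    · rw [k (s * s) s2 (by rw [e, mul_smul])]
      exact mul_mem (Subgroup.mem_zpowers s) (Subgroup.mem_zpowers s)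
  · rcases all c hc with rfl | rfl | rfl
    · exact ⟨1, one_smul _ _, one_smul _ _⟩
    · exact ⟨s, hs, rfl⟩
    · exact ⟨s * s, s2, mul_smul _ _ _⟩

/-- darts in the component -/
def Act.D (h : Act G X v0) : SubMulAction G (V × V) where
  carrier := {p | X.Adj p.1 p.2 ∧ X.Reachable v0 p.1}
  smul_mem' := fun g _ hp => ⟨h.adj g _ _ hp.1, h.inv g _ hp.2⟩

/-- orbits of darts -/
abbrev Act.Q (h : Act G X v0) : Type _ := Quotient (orbitRel G h.D)

/-- the orbit of a dart -/
def Act.cl (h : Act G X v0) {a b : V} (hab : X.Adj a b) (ha : X.Reachable v0 a) : h.Q :=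
  Quotient.mk _ ⟨(a, b), hab, ha⟩

omit [Finite G] in
lemma Act.mk_eq (h : Act G X v0) {a b a' b' : V} {hab : X.Adj a b} {ha : X.Reachable v0 a}
    {hab' : X.Adj a' b'} {ha' : X.Reachable v0 a'} :
    h.cl hab ha = h.cl hab' ha' ↔ ∃ g : G, g • a' = a ∧ g • b' = b := by
  rw [Act.cl, Act.cl, Quotient.eq, orbitRel_apply, mem_orbit_iff]
  exact exists_congr fun g => Subtype.ext_iff.trans Prod.ext_iff

omit [Finite G] in
lemma Act.exists_mk (h : Act G X v0) (q : h.Q) : ∃ a b hab ha, q = h.cl (a := a) (b := b) hab ha :=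
  Quotient.inductionOn q fun d => ⟨d.1.1, d.1.2, d.2.1, d.2.2, rfl⟩

lemma Act.exists_rev (h : Act G X v0) : ∃ ρ : h.Q → h.Q, (∀ a b hab ha,
    ρ (h.cl (a := a) (b := b) hab ha) = h.cl hab.symm (ha.trans hab.reachable)) ∧
    (∀ q, ρ (ρ q) = q) ∧ ∀ q, ρ q ≠ q := by
  let ρ : h.Q → h.Q := Quotient.lift (fun d => h.cl d.2.1.symm (d.2.2.trans d.2.1.reachable))
    fun d d' e => by
      obtain ⟨g, e1, e2⟩ := (h.mk_eq (hab := d.2.1) (ha := d.2.2) (hab' := d'.2.1)
        (ha' := d'.2.2)).1 (Quotient.sound e)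
      exact h.mk_eq.2 ⟨g, e2, e1⟩
  refine ⟨ρ, fun _ _ _ _ => rfl, fun q => ?_, fun q e => ?_⟩ <;>
    obtain ⟨a, b, hab, ha, rfl⟩ := h.exists_mk q
  · rfl
  · obtain ⟨g, e1, e2⟩ := (h.mk_eq (hab := hab.symm) (ha := ha.trans hab.reachable)).1 e
    exact hab.ne ((fix_of_sq h.odd (by rw [e1, e2])).symm.trans e1)

lemma Act.card_Q [Finite V] (h : Act G X v0) : Nat.card h.Q * Nat.card G ≤ 3 * Nat.card V := by
  have := Fintype.ofFinite V
  have e := selfEquivOrbitsQuotientProd (G := G) (X := h.D) fun d => eq_bot_iff.2 fun g hg => by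
    have := Prod.ext_iff.1 (Subtype.ext_iff.1 (mem_stabilizer_iff.1 hg))
    exact h.free d.2.2 d.2.1 this.1 this.2
  rw [← Nat.card_prod, ← Nat.card_congr e]
  have i : Nat.card h.D ≤ Nat.card (Σ v, X.neighborSet v) :=
    Nat.card_le_card_of_injective (fun d => ⟨d.1.1, d.1.2, d.2.1⟩) fun d d' e => by
      have e1 : d.1.1 = d'.1.1 := congrArg Sigma.fst e
      have e2 : d.1.2 = d'.1.2 := congrArg (fun p : Σ v, X.neighborSet v => (p.2 : V)) e
      exact Subtype.ext (Prod.ext e1 e2)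
  rw [Nat.card_sigma] at i
  simpa [h.deg, mul_comm] using i

/-- dart orbits inside a set of vertices -/
def Act.In (h : Act G X v0) (T : Finset V) (q : h.Q) : Prop :=
  ∃ a b hab ha, q = h.cl (a := a) (b := b) hab ha ∧ a ∈ T ∧ b ∈ T

lemma Act.transversal [Finite V] (h : Act G X v0) : ∃ T : Finset V, v0 ∈ T ∧
    (∀ t ∈ T, X.Reachable v0 t) ∧ (∀ t ∈ T, ∀ g : G, g • t ∈ T → g • t = t) ∧
    2 * T.card ≤ {q | h.In T q}.ncard + 2 ∧
    ∀ v, X.Reachable v0 v → ∃ g : G, ∃ t ∈ T, v = g • t := by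
  classical
  have := Fintype.ofFinite V
  obtain ⟨ρ, hρ, -, hρ2⟩ := h.exists_rev
  obtain ⟨T, hT, hmax⟩ := (Finset.univ.filter fun T : Finset V => v0 ∈ T ∧
    (∀ t ∈ T, X.Reachable v0 t) ∧ (∀ t ∈ T, ∀ g : G, g • t ∈ T → g • t = t) ∧
    2 * T.card ≤ {q | h.In T q}.ncard + 2).exists_max_image Finset.card ⟨{v0}, by simp⟩
  simp only [Finset.mem_filter, Finset.mem_univ, true_and] at hT hmax
  obtain ⟨h0, h1, h2, h3⟩ := hT
  refine ⟨T, h0, h1, h2, h3, fun v hv => reach_ind (P := fun v => ∃ g : G, ∃ t ∈ T, v = g • t)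
    ⟨1, v0, h0, (one_smul _ _).symm⟩ ?_ hv⟩
  rintro _ w - ⟨g, t, ht, rfl⟩ hw
  by_contra hn
  have hy : X.Adj t (g⁻¹ • w) := by simpa using h.adj g⁻¹ _ _ hw
  have hn' : ∀ u : G, u • g⁻¹ • w ∉ T := fun u hu =>
    hn ⟨g * u⁻¹, _, hu, by simp [mul_smul]⟩
  set y := g⁻¹ • w
  have hyT : y ∉ T := by simpa using hn' 1
  have ry := (h1 t ht).trans hy.reachable
  have := hmax (insert y T) ⟨Finset.mem_insert_of_mem h0, ?_, ?_, ?_⟩
  · rw [Finset.card_insert_of_notMem hyT] at this; omega
  · simpa using ⟨ry, h1⟩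
  · intro a ha u hu
    rcases Finset.mem_insert.1 ha with rfl | ha <;> rcases Finset.mem_insert.1 hu with e | e
    · exact e
    · exact (hn' u e).elim
    · exact (hn' u⁻¹ (by rwa [← e, inv_smul_smul])).elim
    · exact h2 a ha u e
  · have n1 : ¬ h.In T (h.cl hy (h1 t ht)) := by
      rintro ⟨a, b, hab, ha, e, -, hb⟩
      obtain ⟨u, -, e⟩ := h.mk_eq.1 e.symm
      exact hn' u (e ▸ hb)
    have n2 : ¬ h.In T (h.cl hy.symm ry) := by
      rintro ⟨a, b, hab, ha, e, hb, -⟩
      obtain ⟨u, e, -⟩ := h.mk_eq.1 e.symm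
      exact hn' u (e ▸ hb)
    have n3 : h.cl hy.symm ry ≠ h.cl hy (h1 t ht) := hρ _ _ hy (h1 t ht) ▸ hρ2 _
    have sub : insert (h.cl hy.symm ry) (insert (h.cl hy (h1 t ht)) {q | h.In T q}) ⊆
        {q | h.In (insert y T) q} := by
      rintro q (rfl | rfl | ⟨a, b, hab, ha, e, m1, m2⟩)
      · exact ⟨_, _, _, _, rfl, by simp, by simp [ht]⟩
      · exact ⟨_, _, _, _, rfl, by simp [ht], by simp⟩
      · exact ⟨a, b, hab, ha, e, by simp [m1], by simp [m2]⟩
    have := Set.ncard_le_ncard sub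
    rw [Set.ncard_insert_of_notMem (by simp [n2, n3]),
      Set.ncard_insert_of_notMem (s := {q | h.In T q}) n1] at this
    rw [Finset.card_insert_of_notMem hyT]
    omega

theorem Act.lower [Finite V] (h : Act G X v0) : ∃ S : Finset G,
    Subgroup.closure (S : Set G) = ⊤ ∧
    Nat.card G * (4 * (S.filter fun s => orderOf s = 3).card +
      6 * (S.filter fun s => orderOf s ≠ 3).card) ≤ 3 * Nat.card V + 6 * Nat.card G := by
  classical
  have := Fintype.ofFinite V
  have : Fintype h.Q := Fintype.ofFinite _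
  obtain ⟨ρ, hρ, hρ1, hρ2⟩ := h.exists_rev
  obtain ⟨T, h0, h1, h2, h3, h4⟩ := h.transversal
  have e1 : ∀ t : V, ∃ s : G, (∃ u : G, u • t = t ∧ u ≠ 1) → s • t = t ∧ s ≠ 1 := fun t => by
    by_cases hh : ∃ u : G, u • t = t ∧ u ≠ 1
    · exact ⟨hh.choose, fun _ => hh.choose_spec⟩
    · exact ⟨1, fun h' => (hh h').elim⟩
  choose s hs using e1
  have e2 : ∀ q : h.Q, ∃ γ : G, ∃ x ∈ T, ∃ y ∈ T, ∃ hab ha,
      q = h.cl (a := x) (b := γ • y) hab ha := fun q => by
    obtain ⟨a, b, hab, ha, rfl⟩ := h.exists_mk q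
    obtain ⟨g, x, hx, rfl⟩ := h4 a ha
    obtain ⟨g', y, hy, rfl⟩ := h4 b (ha.trans hab.reachable)
    refine ⟨g⁻¹ * g', x, hx, y, hy, by simpa [mul_smul] using h.adj g⁻¹ _ _ hab, h1 x hx,
      h.mk_eq.2 ⟨g, rfl, by simp [mul_smul]⟩⟩
  choose γ hγ using e2
  let ι := Fintype.equivFin h.Q
  let T1 := T.filter fun t => ∃ u : G, u • t = t ∧ u ≠ 1
  let P := Finset.univ.filter fun q => h.In T q
  let R := Finset.univ.filter fun q => ¬ h.In T q ∧ ι q < ι (ρ q)
  have hP : ∀ q, h.In T q → h.In T (ρ q) := by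
    rintro _ ⟨a, b, hab, ha, rfl, m1, m2⟩
    exact ⟨b, a, _, _, hρ a b hab ha, m2, m1⟩
  have hP' : ∀ q, h.In T (ρ q) → h.In T q := fun q hq => hρ1 q ▸ hP _ hq
  refine ⟨T1.image s ∪ R.image γ, ?_, ?_⟩
  · set K := Subgroup.closure ((T1.image s ∪ R.image γ : Finset G) : Set G)
    have k1 : ∀ t ∈ T, ∀ x ∈ T, ∀ g : G, g • x = t → g ∈ K := by
      intro t ht x hx g hg
      have hg' : g • x = x := h2 x hx g (hg ▸ ht)
      by_cases g1 : g = 1
      · rw [g1]; exact one_mem _
      have := hs x ⟨g, hg', g1⟩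
      refine (Subgroup.zpowers_le.2 (Subgroup.subset_closure ?_) : _ ≤ K)
        ((h.stab (h1 x hx) this.1 this.2).2.1 g hg')
      exact Finset.mem_union_left _ (Finset.mem_image_of_mem _
        (Finset.mem_filter.2 ⟨hx, g, hg', g1⟩))
    have k2 : ∀ q ∈ R, γ q ∈ K := fun q hq =>
      Subgroup.subset_closure (Finset.mem_union_right _ (Finset.mem_image_of_mem _ hq))
    have k3 : ∀ t ∈ T, ∀ w, X.Adj t w → ∃ k ∈ K, ∃ t' ∈ T, w = k • t' := by
      intro t ht w hw
      by_cases c1 : h.In T (h.cl hw (h1 t ht))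
      · obtain ⟨a, b, hab, ha, e, m1, m2⟩ := c1
        obtain ⟨g, e1, e2⟩ := h.mk_eq.1 e
        exact ⟨g, k1 t ht a m1 g e1, b, m2, e2.symm⟩
      rcases lt_trichotomy (ι (h.cl hw (h1 t ht))) (ι (ρ (h.cl hw (h1 t ht)))) with c | c | c
      · obtain ⟨x, hx, y, hy, hab, ha, e⟩ := hγ (h.cl hw (h1 t ht))
        obtain ⟨g, e1, e2⟩ := h.mk_eq.1 e
        exact ⟨_, mul_mem (k1 t ht x hx g e1) (k2 _ (by simpa [R] using ⟨c1, c⟩)), y, hy,
          by rw [mul_smul, e2]⟩
      · exact (hρ2 _ (ι.injective c).symm).elim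
      · obtain ⟨x, hx, y, hy, hab, ha, e⟩ := hγ (ρ (h.cl hw (h1 t ht)))
        have m := k2 (ρ (h.cl hw (h1 t ht))) (by
          simpa [R, hρ1] using ⟨fun hh => c1 (hP' _ hh), c⟩)
        obtain ⟨g, e1, e2⟩ := h.mk_eq.1 ((hρ _ _ hw (h1 t ht)).symm.trans e)
        exact ⟨g, (K.mul_mem_cancel_right m).1 (k1 t ht y hy _ (by rw [mul_smul, e2])), x, hx,
          e1.symm⟩
    refine eq_top_iff.2 fun g _ => ?_
    obtain ⟨k, hk, t, ht, e⟩ := reach_ind (P := fun v => ∃ k ∈ K, ∃ t ∈ T, v = k • t)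
      ⟨1, one_mem _, v0, h0, (one_smul _ _).symm⟩ (by
        rintro _ w - ⟨k, hk, t, ht, rfl⟩ hw
        obtain ⟨k', hk', t', ht', e⟩ := k3 t ht (k⁻¹ • w) (by simpa using h.adj k⁻¹ _ _ hw)
        exact ⟨k * k', mul_mem hk hk', t', ht', by rw [mul_smul, ← e, smul_inv_smul]⟩)
      (h.inv g v0 (SimpleGraph.Reachable.refl _))
    exact (K.mul_mem_cancel_left (inv_mem hk)).1
      (k1 t ht v0 h0 _ (by rw [mul_smul, e, inv_smul_smul]))
  · set S := T1.image s ∪ R.image γ
    have c1 := Finset.card_filter_add_card_filter_not (s := S) fun s => orderOf s = 3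
    have c2 : S.card ≤ T1.card + R.card :=
      (Finset.card_union_le _ _).trans (add_le_add Finset.card_image_le Finset.card_image_le)
    have c3 : (S.filter fun s => orderOf s ≠ 3).card ≤ R.card := by
      refine (Finset.card_le_card fun g hg => ?_).trans (Finset.card_image_le (f := γ))
      obtain ⟨m1, m2⟩ := Finset.mem_filter.1 hg
      refine (Finset.mem_union.1 m1).resolve_left fun m => m2 ?_
      obtain ⟨t, ht, rfl⟩ := Finset.mem_image.1 m
      obtain ⟨m3, m4⟩ := Finset.mem_filter.1 ht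
      exact (h.stab (h1 t m3) (hs t m4).1 (hs t m4).2).1
    have c4 : P.card + R.card + R.card ≤ Nat.card h.Q := by
      have i : (R.image ρ).card = R.card :=
        Finset.card_image_of_injective _ (Function.LeftInverse.injective hρ1)
      rw [Nat.card_eq_fintype_card]
      conv_lhs => rw [← i]; lhs; rw [i]
      rw [← Finset.card_union_of_disjoint, ← Finset.card_union_of_disjoint]
      · exact Finset.card_le_univ _
      · refine Finset.disjoint_right.2 fun q hq hq' => ?_
        obtain ⟨q, m, rfl⟩ := Finset.mem_image.1 hq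
        simp only [R, P, Finset.mem_union, Finset.mem_filter, Finset.mem_univ, true_and,
          hρ1] at m hq'
        exact hq'.elim (fun hh => m.1 (hP' _ hh)) fun hh => lt_asymm m.2 hh.2
      · refine Finset.disjoint_left.2 fun q hq hq' => ?_
        simp only [R, P, Finset.mem_filter, Finset.mem_univ, true_and] at hq hq'
        exact hq'.1 hq
    have c5 : {q | h.In T q}.ncard = P.card := by
      rw [← Set.ncard_coe_finset]; congr 1; ext q; simp [P]
    have c6 : Nat.card h.Q + 2 * T1.card ≤ 3 * T.card := by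
      let Qt : V → Finset h.Q := fun t =>
        Finset.univ.filter fun q => ∃ w hw ht, q = h.cl (a := t) (b := w) hw ht
      have i1 : Nat.card h.Q ≤ ∑ t ∈ T, (Qt t).card := by
        rw [Nat.card_eq_fintype_card]
        refine le_trans (Finset.card_le_card fun q _ => ?_) Finset.card_biUnion_le
        obtain ⟨x, hx, y, -, hab, ha, e⟩ := hγ q
        exact Finset.mem_biUnion.2 ⟨x, hx, by simpa [Qt] using ⟨_, hab, ha, e⟩⟩
      have i2 : ∀ t ∈ T, (Qt t).card + (if t ∈ T1 then 2 else 0) ≤ 3 := by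
        intro t ht
        split_ifs with c
        · obtain ⟨-, m⟩ := Finset.mem_filter.1 c
          obtain ⟨-, -, w, hw, hall⟩ := h.stab (h1 t ht) (hs t m).1 (hs t m).2
          have : (Qt t).card ≤ 1 := by
            refine (Finset.card_le_card (t := {h.cl hw (h1 t ht)}) fun q hq => ?_).trans (by simp)
            obtain ⟨c, hc, _, rfl⟩ := (Finset.mem_filter.1 hq).2
            exact Finset.mem_singleton.2 (h.mk_eq.2 (hall c hc))
          omega
        · rw [add_zero, ← h.deg t, ← Set.ncard_coe_finset, ← Nat.card_coe_set_eq,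
            ← Nat.card_coe_set_eq]
          refine Nat.card_le_card_of_surjective (fun w => ⟨h.cl w.2 (h1 t ht), ?_⟩) ?_
          · simpa [Qt] using ⟨_, w.2, h1 t ht, rfl⟩
          · rintro ⟨q, hq⟩
            obtain ⟨c, hc, _, rfl⟩ := (Finset.mem_filter.1 hq).2
            exact ⟨⟨c, hc⟩, rfl⟩
      have i3 := Finset.sum_le_sum i2
      rw [Finset.sum_add_distrib, Finset.sum_ite_mem, Finset.inter_eq_right.2
        (Finset.filter_subset _ _)] at i3
      simp only [Finset.sum_const, smul_eq_mul] at i3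
      change _ + T1.card * 2 ≤ _ at i3
      omega
    have c7 := h.card_Q
    have c8 : 4 * (S.filter fun s => orderOf s = 3).card +
        6 * (S.filter fun s => orderOf s ≠ 3).card ≤ Nat.card h.Q + 6 := by
      simp only [ne_eq] at c3 ⊢
      omega
    nlinarith [Nat.mul_le_mul_left (Nat.card G) c8]

lemma exists_act (ho : Odd (Nat.card G)) (deg : ∀ v, (X.neighborSet v).ncard = 3)
    (hind : ∀ A B : Subgroup G, A.Normal → B.Normal → IsCompl A B → A = ⊥ ∨ B = ⊥)
    [Nontrivial G] (adj : ∀ (g : G) a b, X.Adj a b → X.Adj (g • a) (g • b))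
    (faith : ∀ g : G, (∀ v : V, g • v = v) → g = 1)
    (full : ∀ f f' : V → V, Function.LeftInverse f' f → Function.RightInverse f' f →
      (∀ a b, X.Adj a b → X.Adj (f a) (f b)) → (∀ a b, X.Adj a b → X.Adj (f' a) (f' b)) →
      ∃ g : G, ∀ v, g • v = f v) : ∃ v0, Act G X v0 := by
  classical
  have rs : ∀ (g : G) a b, X.Reachable a b → X.Reachable (g • a) (g • b) := fun g a b hab =>
    reach_ind (P := fun b => X.Reachable (g • a) (g • b)) (.refl _)
      (fun u w _ hu h => hu.trans (adj g u w h).reachable) hab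
  have ra : ∀ v a b, X.Adj a b → (X.Reachable v a ↔ X.Reachable v b) := fun v a b h =>
    ⟨fun h1 => h1.trans h.reachable, fun h1 => h1.trans h.symm.reachable⟩
  have inv : ∀ (g : G) v, X.Reachable v (g • v) := by
    intro g v
    by_contra hn
    let σ : V → V := fun w =>
      if X.Reachable v w then g • w else if X.Reachable (g • v) w then g⁻¹ • w else w
    have s1 : Function.LeftInverse σ σ := by
      intro w
      by_cases c1 : X.Reachable v w
      · have c2 := rs g v w c1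
        have c3 : ¬ X.Reachable v (g • w) := fun h => hn (h.trans c2.symm)
        simp [σ, c1, c2, c3]
      · by_cases c2 : X.Reachable (g • v) w
        · have c3 : X.Reachable v (g⁻¹ • w) := by simpa using rs g⁻¹ _ _ c2
          simp [σ, c1, c2, c3]
        · simp [σ, c1, c2]
    have s2 : ∀ a b, X.Adj a b → X.Adj (σ a) (σ b) := by
      intro a b h
      simp only [σ, ra v a b h, ra (g • v) a b h]
      split_ifs
      exacts [adj g a b h, adj _ a b h, h]
    obtain ⟨u, hu⟩ := full σ σ s1 s1 s2 s2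
    have := fix_of_sq ho (g := u) (c := v) (by rw [hu, hu, s1])
    rw [hu] at this
    simp only [σ, if_pos (SimpleGraph.Reachable.refl v)] at this
    exact hn (this.symm ▸ .refl v)
  have inv' : ∀ (g : G) v w, X.Reachable v (g • w) ↔ X.Reachable v w := fun g v w =>
    ⟨fun h => h.trans (inv g w).symm, fun h => h.trans (inv g w)⟩
  obtain ⟨g0, hg0⟩ := exists_ne (1 : G)
  obtain ⟨v0, hv0⟩ := not_forall.1 fun h => hg0 (faith g0 h)
  have res : ∀ g : G, ∃ a : G, ∀ w, a • w = if X.Reachable v0 w then g • w else w := by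
    have a1 : ∀ (g : G) a b, X.Adj a b → X.Adj (if X.Reachable v0 a then g • a else a)
        (if X.Reachable v0 b then g • b else b) := by
      intro g a b h
      simp only [ra v0 a b h]
      split_ifs
      exacts [adj g a b h, h]
    intro g
    refine full _ (fun w => if X.Reachable v0 w then g⁻¹ • w else w) (fun w => ?_) (fun w => ?_)
      (a1 g) (a1 g⁻¹) <;> by_cases c : X.Reachable v0 w <;> simp [c, inv']
  have nm : ∀ s : Set V, (∀ (g : G), ∀ w ∈ s, g • w ∈ s) → (fixingSubgroup G s).Normal :=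
    fun s hs => ⟨fun a ha k => (mem_fixingSubgroup_iff G).2 fun w hw => by
      rw [mul_smul, mul_smul, (mem_fixingSubgroup_iff G).1 ha _ (hs k⁻¹ w hw), smul_inv_smul]⟩
  have resA : ∀ g a : G, (∀ w, a • w = if X.Reachable v0 w then g • w else w) →
      a ∈ fixingSubgroup G {w | ¬ X.Reachable v0 w} := fun g a ha =>
    (mem_fixingSubgroup_iff G).2 fun w hw => by rw [ha, if_neg hw]
  rcases hind (fixingSubgroup G {w | ¬ X.Reachable v0 w}) (fixingSubgroup G {w | X.Reachable v0 w})
    (nm _ fun g w hw h => hw ((inv' g v0 w).1 h)) (nm _ fun g w hw => (inv' g v0 w).2 hw)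
    ⟨disjoint_iff_inf_le.2 fun g hg => faith g fun w => by
      by_cases c : X.Reachable v0 w
      · exact (mem_fixingSubgroup_iff G).1 hg.2 w c
      · exact (mem_fixingSubgroup_iff G).1 hg.1 w c,
    codisjoint_iff_le_sup.2 fun g _ => by
      obtain ⟨a, ha⟩ := res g
      rw [← mul_inv_cancel_left a g]
      refine Subgroup.mul_mem_sup (resA g a ha) ((mem_fixingSubgroup_iff G).2 fun w hw => ?_)
      rw [mul_smul, inv_smul_eq_iff, ha, if_pos (show X.Reachable v0 w from hw)]⟩ with h | h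
  · obtain ⟨a, ha⟩ := res g0
    have := resA g0 a ha
    rw [h, Subgroup.mem_bot] at this
    have e := ha v0
    rw [this, one_smul, if_pos (.refl v0)] at e
    exact (hv0 e.symm).elim
  · refine ⟨v0, ho, deg, adj, fun g v hv => (inv' g v0 v).2 hv, fun g hg => ?_⟩
    rw [← Subgroup.mem_bot, ← h]
    exact (mem_fixingSubgroup_iff G).2 hg

theorem lower_bound {G V : Type*} [Group G] [Finite G] [Finite V] (X : SimpleGraph V)
    (ho : Odd (Nat.card G))
    (hind : ∀ A B : Subgroup G, A.Normal → B.Normal → IsCompl A B → A = ⊥ ∨ B = ⊥)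
    (deg : ∀ v, (X.neighborSet v).ncard = 3) (e : (X ≃g X) ≃* G) : ∃ S : Finset G,
    Subgroup.closure (S : Set G) = ⊤ ∧
    Nat.card G * (4 * (S.filter fun s => orderOf s = 3).card +
      6 * (S.filter fun s => orderOf s ≠ 3).card) ≤ 3 * Nat.card V + 6 * Nat.card G := by
  rcases subsingleton_or_nontrivial G with h | h
  · exact ⟨∅, Subsingleton.elim _ _, by simp⟩
  let _ : MulAction G V :=
    { smul := fun g v => e.symm g v
      one_smul := fun v => by change e.symm 1 v = v; simp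
      mul_smul := fun g k v => by change e.symm (g * k) v = e.symm g (e.symm k v); simp }
  obtain ⟨v0, h⟩ := exists_act (X := X) ho deg hind
    (fun g a b h => (e.symm g).map_adj_iff.2 h)
    (fun g hg => e.symm.injective (by rw [map_one]; exact RelIso.ext hg))
    fun f f' h1 h2 h3 h4 => ⟨e ⟨⟨f, f', h1, h2⟩, fun {a b} =>
      ⟨fun h => by simpa [h1 a, h1 b] using h4 _ _ h, h3 a b⟩⟩, fun v => by
        change e.symm (e _) v = _
        rw [e.symm_apply_apply]; rfl⟩
  exact h.lower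

end Pool.Agent.Lib.MP_b549f0_co
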