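import Pool.Agent.Lib.MP_b549f0_co.Cover

/-!
The base graph with one edge subdivided and with pendant vertices.
-/

set_option linter.unusedSimpArgs false
set_option linter.unusedSectionVars false

namespace Pool.Agent.Lib.MP_b549f0_co

/-- adjacency in the subdivided base graph -/
def B (d b u v : ℕ) : Prop :=
  (u < 2 * d ∧ v < 2 * d ∧ A d u v ∧ ¬ (u = 8 ∧ v = 10) ∧ ¬ (u = 10 ∧ v = 8)) ∨
  (u = 8 ∧ v = 2 * d) ∨ (u = 2 * d ∧ v = 8) ∨ (u = 10 ∧ v + 2 = 2 * d + 2 * b) ∨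
  (u + 2 = 2 * d + 2 * b ∧ v = 10) ∨
  (2 * d ≤ u ∧ u < 2 * d + 2 * b ∧ u % 2 = 0 ∧
    (v = u + 1 ∨ (v = u + 2 ∧ v < 2 * d + 2 * b) ∨ (v + 2 = u ∧ 2 * d ≤ v))) ∨
  (2 * d ≤ u ∧ u < 2 * d + 2 * b ∧ u % 2 = 1 ∧ v + 1 = u)

section Base

variable {d b : ℕ} (hd : 6 ≤ d) (hb : 1 ≤ b)
include hd hb

lemma B_symm {u v : ℕ} (h : B d b u v) : B d b v u := by
  rcases h with ⟨h1, h2, h3, h4, h5⟩ | h
  · exact Or.inl ⟨h2, h1, A_symm hd h1 h3, by omega, by omega⟩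
  · right; omega

lemma B_ne {u v : ℕ} (h : B d b u v) : u ≠ v := by
  rcases h with ⟨h1, h2, h3, h4, h5⟩ | h
  · exact A_ne hd h3
  · omega

lemma B_A {u v : ℕ} (h : B d b u v) (hu : u < 2 * d) (hv : v < 2 * d) : A d u v := by
  rcases h with ⟨h1, h2, h3, h4, h5⟩ | h
  · exact h3
  · omega

lemma B0 (v : ℕ) : B d b 0 v ↔ v = 1 ∨ v = 2 ∨ v = 4 := by simp only [B, A0]; omega
lemma B1 (v : ℕ) : B d b 1 v ↔ v = 0 ∨ v = 2 ∨ v = 5 := by simp only [B, A1]; omega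
lemma B2 (v : ℕ) : B d b 2 v ↔ v = 0 ∨ v = 1 ∨ v = 3 := by simp only [B, A2]; omega
lemma B3 (v : ℕ) : B d b 3 v ↔ v = 2 ∨ v = 2 * d - 2 ∨ v = 2 * d - 1 := by
  simp only [B, A3]; omega
lemma B4 (v : ℕ) : B d b 4 v ↔ v = 0 ∨ v = 6 ∨ v = 7 := by simp only [B, A4]; omega
lemma B5 (v : ℕ) : B d b 5 v ↔ v = 1 ∨ v = 7 ∨ v = 8 := by simp only [B, A5]; omega
lemma B6 (v : ℕ) : B d b 6 v ↔ v = 4 ∨ v = 8 ∨ v = 9 := by simp only [B, A6]; omega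
lemma B7 (v : ℕ) : B d b 7 v ↔ v = 4 ∨ v = 5 ∨ v = 9 := by simp only [B, A7]; omega
lemma B8 (v : ℕ) : B d b 8 v ↔ v = 5 ∨ v = 6 ∨ v = 2 * d := by
  simp only [B, A8, true_and]; omega
lemma B9 (v : ℕ) : B d b 9 v ↔ v = 6 ∨ v = 7 ∨ v = 11 := by simp only [B, A9]; omega

lemma B_ge {u : ℕ} (hu : 10 ≤ u) (hu' : u < 2 * d) (v : ℕ) : B d b u v ↔
    (u = 10 ∧ v + 2 = 2 * d + 2 * b) ∨ (u ≠ 10 ∧ v + 2 = u) ∨ (u % 2 = 0 ∧ v = u + 1) ∨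
    (u % 2 = 1 ∧ v + 1 = u) ∨ (u + 2 < 2 * d ∧ v = u + 2) ∨ (2 * d ≤ u + 2 ∧ v = 3) := by
  simp only [B, A_ge hu]; omega

lemma B_p {u : ℕ} (hu : 2 * d ≤ u) (hu' : u < 2 * d + 2 * b) (h2 : u % 2 = 0) (v : ℕ) :
    B d b u v ↔ v = u + 1 ∨ (u = 2 * d ∧ v = 8) ∨ (2 * d < u ∧ v + 2 = u) ∨
      (u + 2 = 2 * d + 2 * b ∧ v = 10) ∨ (u + 2 < 2 * d + 2 * b ∧ v = u + 2) := by
  simp only [B, not_lt.2 hu, false_and, false_or]; omega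

lemma B_c {u : ℕ} (hu : 2 * d ≤ u) (hu' : u < 2 * d + 2 * b) (h2 : u % 2 = 1) (v : ℕ) :
    B d b u v ↔ v + 1 = u := by
  simp only [B, not_lt.2 hu, false_and, false_or]; omega

lemma B_tri {u v w : ℕ} (h1 : B d b u v) (h2 : B d b v w) (h3 : B d b w u) : u < 2 * d := by
  by_contra hu
  have n := B_ne hd hb h2
  have h4 := B_symm hd hb h3
  have hu' : u < 2 * d + 2 * b := by unfold B at h1; omega
  rcases Nat.mod_two_eq_zero_or_one u with e | e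
  · rw [B_p hd hb (by omega) hu' e] at h1 h4
    unfold B at h2
    omega
  · rw [B_c hd hb (by omega) hu' e] at h1 h4
    omega

lemma exists_nbrsB (u : ℕ) (hu : u < 2 * d + 2 * b) (h : ¬ (2 * d ≤ u ∧ u % 2 = 1)) :
    ∃ x y z : ℕ, (x < 2 * d + 2 * b ∧ y < 2 * d + 2 * b ∧ z < 2 * d + 2 * b ∧
      x ≠ y ∧ x ≠ z ∧ y ≠ z) ∧ ∀ v, (B d b u v ↔ v = x ∨ v = y ∨ v = z) := by
  by_cases h10 : u < 10
  · interval_cases u
    · exact ⟨1, 2, 4, by omega, B0 hd hb⟩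
    · exact ⟨0, 2, 5, by omega, B1 hd hb⟩
    · exact ⟨0, 1, 3, by omega, B2 hd hb⟩
    · exact ⟨2, 2 * d - 2, 2 * d - 1, by omega, B3 hd hb⟩
    · exact ⟨0, 6, 7, by omega, B4 hd hb⟩
    · exact ⟨1, 7, 8, by omega, B5 hd hb⟩
    · exact ⟨4, 8, 9, by omega, B6 hd hb⟩
    · exact ⟨4, 5, 9, by omega, B7 hd hb⟩
    · exact ⟨5, 6, 2 * d, by omega, B8 hd hb⟩
    · exact ⟨6, 7, 11, by omega, B9 hd hb⟩
  by_cases h2d : u < 2 * d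
  · refine ⟨if u = 10 then 2 * d + 2 * b - 2 else u - 2, if u % 2 = 0 then u + 1 else u - 1,
      if u + 2 < 2 * d then u + 2 else 3, ?_, fun v => ?_⟩
    · split_ifs <;> omega
    · rw [B_ge hd hb (by omega) h2d]
      split_ifs <;> omega
  · refine ⟨u + 1, if u = 2 * d then 8 else u - 2, if u + 2 < 2 * d + 2 * b then u + 2 else 10,
      ?_, fun v => ?_⟩
    · split_ifs <;> omega
    · rw [B_p hd hb (by omega) hu (by omega)]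
      split_ifs <;> omega

end Base

end Pool.Agent.Lib.MP_b549f0_co
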