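import Pool.Agent.Lib.MP_b549f0_co.UpperA

/-!
The branched cover of the subdivided base graph: degrees, number of vertices, invariant fibres.
-/

set_option linter.unusedSimpArgs false

namespace Pool.Agent.Lib.MP_b549f0_co

variable {G : Type*} [Group G]

/-- voltages on the subdivided graph -/
def ph (d : ℕ) (g : ℕ → G) (u v : ℕ) : G := if u < 2 * d ∧ v < 2 * d then phi d g u v else 1

lemma ph_symm (d : ℕ) (g : ℕ → G) {u v : ℕ} (h : u ≠ v) : ph d g v u = (ph d g u v)⁻¹ := by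
  unfold ph
  by_cases c : u < 2 * d ∧ v < 2 * d
  · rw [if_pos c, if_pos c.symm, phi_symm d g h]
  · rw [if_neg c, if_neg (fun c' => c c'.symm), inv_one]

lemma ph_lt {d : ℕ} (g : ℕ → G) {u v : ℕ} (hu : u < 2 * d) (hv : v < 2 * d) :
    ph d g u v = phi d g u v := if_pos ⟨hu, hv⟩

lemma ph_ge {d : ℕ} (g : ℕ → G) {u v : ℕ} (h : 2 * d ≤ u ∨ 2 * d ≤ v) : ph d g u v = 1 :=
  if_neg (by omega)

/-- vertex groups -/
def H (d : ℕ) (t : ℕ → G) (u : ℕ) : Subgroup G :=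
  if 2 * d ≤ u ∧ u % 2 = 1 then Subgroup.zpowers (t ((u - 2 * d) / 2)) else ⊥

lemma H_bot {d u : ℕ} (t : ℕ → G) (h : ¬ (2 * d ≤ u ∧ u % 2 = 1)) : H d t u = ⊥ := if_neg h

lemma H_c (d i : ℕ) (t : ℕ → G) : H d t (2 * d + 2 * i + 1) = Subgroup.zpowers (t i) := by
  rw [H, if_pos (by omega)]
  congr 2
  omega

/-- vertices of the branched cover -/
abbrev W (d b : ℕ) (t : ℕ → G) : Type _ := Σ u : Fin (2 * d + 2 * b), G ⧸ H d t u

variable {d b : ℕ} {t : ℕ → G}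

/-- a vertex given by a base vertex and a group element -/
def vt (t : ℕ → G) (u : ℕ) (hu : u < 2 * d + 2 * b) (x : G) : W d b t := ⟨⟨u, hu⟩, x⟩

lemma exists_vt (p : W d b t) : ∃ x, p = vt t p.1 p.1.2 x := by
  obtain ⟨u, c⟩ := p
  obtain ⟨x, rfl⟩ := QuotientGroup.mk_surjective c
  exact ⟨x, rfl⟩

lemma vt_eq {u v : ℕ} {hu : u < 2 * d + 2 * b} {hv : v < 2 * d + 2 * b} {x y : G} :
    vt t u hu x = vt t v hv y ↔ u = v ∧ x⁻¹ * y ∈ H d t u := by
  constructor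
  · intro h
    obtain rfl : u = v := congrArg (fun p : W d b t => (p.1 : ℕ)) h
    exact ⟨rfl, QuotientGroup.eq.1 (eq_of_heq (Sigma.mk.inj h).2)⟩
  · rintro ⟨rfl, h⟩
    exact congrArg (Sigma.mk _) (QuotientGroup.eq.2 h)

/-- the branched cover -/
def bc (hd : 6 ≤ d) (hb : 1 ≤ b) (g t : ℕ → G) : SimpleGraph (W d b t) where
  Adj p r := B d b p.1 r.1 ∧ ∃ x : G, p = vt t p.1 p.1.2 x ∧ r = vt t r.1 r.1.2 (x * ph d g p.1 r.1)
  symm := ⟨fun p r ⟨h, x, h1, h2⟩ => ⟨B_symm hd hb h, _, h2, by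
    rwa [ph_symm d g (B_ne hd hb h), mul_inv_cancel_right]⟩⟩
  loopless := ⟨fun p h => B_ne hd hb h.1 rfl⟩

variable {hd : 6 ≤ d} {hb : 1 ≤ b} {g : ℕ → G}

lemma adj_vt {u v : ℕ} {hu : u < 2 * d + 2 * b} {hv : v < 2 * d + 2 * b} {x y : G} :
    (bc hd hb g t).Adj (vt t u hu x) (vt t v hv y) ↔
      B d b u v ∧ ∃ z, x⁻¹ * z ∈ H d t u ∧ y⁻¹ * (z * ph d g u v) ∈ H d t v :=
  and_congr Iff.rfl (exists_congr fun _ => and_congr (vt_eq.trans (and_iff_right rfl))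
    (vt_eq.trans (and_iff_right rfl)))

lemma adj_step {u v : ℕ} (hu : u < 2 * d + 2 * b) (hv : v < 2 * d + 2 * b) (h : B d b u v) (x : G) :
    (bc hd hb g t).Adj (vt t u hu x) (vt t v hv (x * ph d g u v)) :=
  adj_vt.2 ⟨h, x, by simp, by simp⟩

lemma mem_three {s a : G} (hs : orderOf s = 3) (ha : a ∈ Subgroup.zpowers s) :
    a = 1 ∨ a = s ∨ a = s⁻¹ := by
  have h3 : s ^ (3 : ℤ) = 1 := by
    have := pow_orderOf_eq_one s
    rw [hs] at this
    exact_mod_cast this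
  obtain ⟨k, rfl⟩ := ha
  have e : ∀ r : ℤ, k % 3 = r % 3 → s ^ k = s ^ r := fun r h => by
    rw [zpow_eq_zpow_emod k h3, h, ← zpow_eq_zpow_emod r h3]
  rcases (by omega : k % 3 = 0 % 3 ∨ k % 3 = 1 % 3 ∨ k % 3 = (-1) % 3) with h | h | h
  · exact Or.inl (by simpa using e 0 h)
  · exact Or.inr (Or.inl (by simpa using e 1 h))
  · exact Or.inr (Or.inr (by simpa using e (-1) h))

lemma three_ne {s : G} (hs : orderOf s = 3) : s ≠ 1 ∧ s⁻¹ ≠ s := by
  refine ⟨fun h => by simp [h] at hs, fun h => ?_⟩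
  have : orderOf s ∣ 2 := orderOf_dvd_of_pow_eq_one (by rw [pow_two]; nth_rw 1 [← h]; simp)
  rw [hs] at this
  omega

lemma exists_vt' (p : W d b t) : ∃ u hu x, p = vt t u hu x := ⟨_, _, exists_vt p⟩

lemma bc_ncard (ht : ∀ i < b, orderOf (t i) = 3) (p : W d b t) :
    ((bc hd hb g t).neighborSet p).ncard = 3 := by
  obtain ⟨u, hu, x, rfl⟩ := exists_vt' p
  rw [Set.ncard_eq_three]
  by_cases h : 2 * d ≤ u ∧ u % 2 = 1
  · obtain ⟨i, rfl⟩ : ∃ i, u = 2 * d + 2 * i + 1 := ⟨(u - 2 * d) / 2, by omega⟩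
    have h3 := ht i (by omega)
    have n := three_ne h3
    have hv : 2 * d + 2 * i < 2 * d + 2 * b := by omega
    have e : H d t (2 * d + 2 * i) = ⊥ := H_bot t (by omega)
    refine ⟨vt t _ hv x, vt t _ hv (x * t i), vt t _ hv (x * (t i)⁻¹), ?_, ?_, ?_, ?_⟩
    · simp [vt_eq, e, n.1]
    · simp [vt_eq, e, n.1]
    · simpa [vt_eq, e, mul_assoc, inv_mul_eq_one] using n.2.symm
    ext r
    obtain ⟨v, hv', y, rfl⟩ := exists_vt' r
    simp only [SimpleGraph.mem_neighborSet, adj_vt, B_c hd hb h.1 hu h.2, H_c, Set.mem_insert_iff,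
      Set.mem_singleton_iff, vt_eq, ph_ge g (Or.inl h.1), mul_one]
    constructor
    · rintro ⟨h1, z, h2, h4⟩
      obtain rfl : v = 2 * d + 2 * i := by omega
      rcases mem_three h3 h2 with h5 | h5 | h5 <;> rw [inv_mul_eq_iff_eq_mul] at h5 <;> subst h5
      · exact Or.inl ⟨rfl, by simpa using h4⟩
      · exact Or.inr (Or.inl ⟨rfl, h4⟩)
      · exact Or.inr (Or.inr ⟨rfl, h4⟩)
    · rintro (⟨rfl, h4⟩ | ⟨rfl, h4⟩ | ⟨rfl, h4⟩) <;> exact ⟨rfl, _, by simp, h4⟩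
  · obtain ⟨a, a', a'', ⟨h1, h2, h3, n1, n2, n3⟩, hn⟩ := exists_nbrsB hd hb u hu h
    refine ⟨vt t a h1 (x * ph d g u a), vt t a' h2 (x * ph d g u a'),
      vt t a'' h3 (x * ph d g u a''), by simp [vt_eq, n1], by simp [vt_eq, n2],
      by simp [vt_eq, n3], ?_⟩
    ext r
    obtain ⟨v, hv', y, rfl⟩ := exists_vt' r
    simp only [SimpleGraph.mem_neighborSet, adj_vt, hn, H_bot t h, Set.mem_insert_iff,
      Set.mem_singleton_iff, vt_eq, Subgroup.mem_bot, inv_mul_eq_one, exists_eq_left']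
    constructor
    · rintro ⟨rfl | rfl | rfl, h4⟩
      exacts [Or.inl ⟨rfl, h4⟩, Or.inr (Or.inl ⟨rfl, h4⟩), Or.inr (Or.inr ⟨rfl, h4⟩)]
    · rintro (⟨rfl, h4⟩ | ⟨rfl, h4⟩ | ⟨rfl, h4⟩) <;> exact ⟨by simp, h4⟩

lemma card_W [Finite G] (ht : ∀ i < b, orderOf (t i) = 3) :
    3 * Nat.card (W d b t) = Nat.card G * (6 * d + 4 * b) := by
  have e1 : ∀ u, ¬ (2 * d ≤ u ∧ u % 2 = 1) → Nat.card (G ⧸ H d t u) = Nat.card G := fun u h => by
    rw [H_bot t h]
    exact Subgroup.index_bot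
  have e2 : ∀ i < b, 3 * Nat.card (G ⧸ H d t (2 * d + (2 * i + 1))) = Nat.card G := fun i hi => by
    rw [← add_assoc, H_c, Subgroup.card_eq_card_quotient_mul_card_subgroup (Subgroup.zpowers (t i)),
      Nat.card_zpowers, ht i hi, mul_comm]
  have e3 : ∀ k ≤ b, 3 * ∑ j ∈ Finset.range (2 * k), Nat.card (G ⧸ H d t (2 * d + j)) =
      Nat.card G * (4 * k) := by
    intro k hk
    induction k with
    | zero => simp
    | succ k ih =>
      rw [show 2 * (k + 1) = 2 * k + 1 + 1 by ring, Finset.sum_range_succ, Finset.sum_range_succ,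
        mul_add, mul_add, ih (by omega), e2 k (by omega), e1 _ (by omega)]
      ring
  rw [Nat.card_sigma, Fin.sum_univ_eq_sum_range (fun u => Nat.card (G ⧸ H d t u)),
    Finset.sum_range_add, mul_add, e3 b le_rfl,
    Finset.sum_congr rfl fun u hu => e1 u (by have := Finset.mem_range.1 hu; omega)]
  simp only [Finset.sum_const, Finset.card_range, smul_eq_mul]
  ring

/-- sets of base vertices whose preimage is invariant under all automorphisms -/
def Gd (hd : 6 ≤ d) (hb : 1 ≤ b) (g t : ℕ → G) (S : ℕ → Prop) : Prop :=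
  ∀ (α : bc hd hb g t ≃g bc hd hb g t) (p : W d b t), S p.1 → S (α p).1

lemma Gd.not {S : ℕ → Prop} (h : Gd hd hb g t S) : Gd hd hb g t (fun u => ¬ S u) :=
  fun α p h1 h2 => h1 (by simpa using h α.symm (α p) h2)

lemma Gd.and {S T : ℕ → Prop} (h : Gd hd hb g t S) (h' : Gd hd hb g t T) :
    Gd hd hb g t (fun u => S u ∧ T u) := fun α p h1 => ⟨h α p h1.1, h' α p h1.2⟩

lemma Gd.congr {S T : ℕ → Prop} (h : Gd hd hb g t S)
    (h' : ∀ u, u < 2 * d + 2 * b → (S u ↔ T u)) : Gd hd hb g t T :=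
  fun α p h1 => (h' _ (α p).1.2).1 (h α p ((h' _ p.1.2).2 h1))

lemma Gd.nbr {S : ℕ → Prop} (h : Gd hd hb g t S) :
    Gd hd hb g t (fun u => ∃ v, v < 2 * d + 2 * b ∧ S v ∧ B d b u v) := by
  rintro α p ⟨v, hv, hS, hA⟩
  obtain ⟨u, hu, x, rfl⟩ := exists_vt' p
  exact ⟨_, (α _).1.2, h α (vt t v hv _) hS, (α.map_adj_iff.2 (adj_step hu hv hA x)).1⟩

lemma Gd.nbr1 {c : ℕ} (h : Gd hd hb g t (fun u => u = c)) (hc : c < 2 * d + 2 * b) :
    Gd hd hb g t (fun u => B d b c u) :=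
  h.nbr.congr fun _ _ => ⟨fun ⟨_, _, h1, h2⟩ => h1 ▸ B_symm hd hb h2,
    fun h1 => ⟨c, hc, rfl, B_symm hd hb h1⟩⟩

lemma Gd.nbrL {L : List ℕ} (h : Gd hd hb g t (fun u => u ∈ L)) (hc : ∀ c ∈ L, c < 2 * d + 2 * b) :
    Gd hd hb g t (fun u => ∃ c ∈ L, B d b c u) :=
  h.nbr.congr fun _ _ => ⟨fun ⟨v, _, h1, h2⟩ => ⟨v, h1, B_symm hd hb h2⟩,
    fun ⟨c, h1, h2⟩ => ⟨c, hc c h1, h1, B_symm hd hb h2⟩⟩

lemma gd_tri (hg : g (d - 1) ≠ g (d - 2) * g (d - 3)) :
    Gd hd hb g t (fun u => u ∈ [0, 1, 2]) := by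
  have key : ∀ p : W d b t, ((p.1 : ℕ) ∈ [0, 1, 2]) ↔
      ∃ q r, (bc hd hb g t).Adj p q ∧ (bc hd hb g t).Adj q r ∧ (bc hd hb g t).Adj r p := by
    intro p
    obtain ⟨u, hu, x, rfl⟩ := exists_vt' p
    change u ∈ [0, 1, 2] ↔ _
    simp only [List.mem_cons, List.not_mem_nil, or_false]
    constructor
    · have st : ∀ u v, ∀ (hu : u < 3) (hv : v < 3), u ≠ v →
          (bc hd hb g t).Adj (vt t u (by omega) x) (vt t v (by omega) x) := by
        intro u v hu hv n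
        have e : ph d g u v = 1 := by
          rw [ph_lt g (by omega) (by omega)]
          interval_cases u <;> interval_cases v <;> simp [phi, psi]
        have := adj_step (hd := hd) (hb := hb) (g := g) (t := t) (u := u) (v := v) (by omega)
          (by omega) (by
            interval_cases u <;> simp only [B0 hd hb, B1 hd hb, B2 hd hb] <;> omega) x
        rwa [e, mul_one] at this
      rintro (rfl | rfl | rfl)
      · exact ⟨_, _, st 0 1 (by omega) (by omega) (by omega), st 1 2 (by omega) (by omega)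
          (by omega), st 2 0 (by omega) (by omega) (by omega)⟩
      · exact ⟨_, _, st 1 2 (by omega) (by omega) (by omega), st 2 0 (by omega) (by omega)
          (by omega), st 0 1 (by omega) (by omega) (by omega)⟩
      · exact ⟨_, _, st 2 0 (by omega) (by omega) (by omega), st 0 1 (by omega) (by omega)
          (by omega), st 1 2 (by omega) (by omega) (by omega)⟩
    · rintro ⟨q, r, h1, h2, h3⟩
      obtain ⟨v, hv, y, rfl⟩ := exists_vt' q
      obtain ⟨w, hw, z, rfl⟩ := exists_vt' r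
      obtain ⟨h1, x', e1, e1'⟩ := adj_vt.1 h1
      obtain ⟨h2, y', e2, e2'⟩ := adj_vt.1 h2
      obtain ⟨h3, z', e3, e3'⟩ := adj_vt.1 h3
      have lu := B_tri hd hb h1 h2 h3
      have lv := B_tri hd hb h2 h3 h1
      have lw := B_tri hd hb h3 h1 h2
      rcases tri_base hd lu lv lw (B_A hd hb h1 lu lv) (B_A hd hb h2 lv lw) (B_A hd hb h3 lw lu)
        with h | h
      · omega
      refine (hg (tri_voltage hd h ?_)).elim
      rw [H_bot t (by omega), Subgroup.mem_bot, inv_mul_eq_one] at e1 e1' e2 e2' e3 e3'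
      rw [ph_lt g (by omega) (by omega)] at e1' e2' e3'
      subst e1 e2 e3
      refine mul_left_cancel (a := x) ?_
      rw [mul_one, ← mul_assoc, ← mul_assoc, ← e1', ← e2', ← e3']
  intro α p hp
  obtain ⟨q, r, h1, h2, h3⟩ := (key p).1 hp
  exact (key (α p)).2 ⟨α q, α r, α.map_adj_iff.2 h1, α.map_adj_iff.2 h2, α.map_adj_iff.2 h3⟩

end Pool.Agent.Lib.MP_b549f0_co
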