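import Pool.Agent.Lib.MP_b549f0_co.UpperB

/-!
Every fibre of the branched cover is invariant under all automorphisms.
-/

set_option linter.unusedSimpArgs false

namespace Pool.Agent.Lib.MP_b549f0_co

variable {G : Type*} [Group G] {d b : ℕ} {hd : 6 ≤ d} {hb : 1 ≤ b} {g t : ℕ → G}

lemma gd_small (hg : g (d - 1) ≠ g (d - 2) * g (d - 3)) (c : ℕ) (hc : c < 10 ∨ c = 11) :
    Gd hd hb g t (fun u => u = c) := by
  have T := gd_tri (hd := hd) (hb := hb) (t := t) hg
  have b0 := B0 hd hb
  have b1 := B1 hd hb
  have b2 := B2 hd hb
  have b3 := B3 hd hb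
  have b4 := B4 hd hb
  have b5 := B5 hd hb
  have b6 := B6 hd hb
  have b7 := B7 hd hb
  have b8 := B8 hd hb
  have b9 := B9 hd hb
  have e1 := B_ge hd hb (u := 2 * d - 2) (by omega) (by omega)
  have e2 := B_ge hd hb (u := 2 * d - 1) (by omega) (by omega)
  have D1 : Gd hd hb g t (fun u => u ∈ [3, 4, 5]) :=
    ((T.nbrL (by simp; omega)).and T.not).congr fun u hu => by
      simp only [List.mem_cons, List.not_mem_nil, or_false, exists_eq_or_imp, exists_eq_left,
        b0, b1, b2, b3, b4, b5, b6, b7, b8, b9, e1, e2]
      omega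
  have D2 : Gd hd hb g t (fun u => u ∈ [6, 7, 8, 2 * d - 2, 2 * d - 1]) :=
    ((D1.nbrL (by simp; omega)).and T.not).congr fun u hu => by
      simp only [List.mem_cons, List.not_mem_nil, or_false, exists_eq_or_imp, exists_eq_left,
        b0, b1, b2, b3, b4, b5, b6, b7, b8, b9, e1, e2]
      omega
  have v7 : Gd hd hb g t (fun u => u = 7) :=
    (D2.and (D2.nbrL (by simp; omega)).not).congr fun u hu => by
      simp only [List.mem_cons, List.not_mem_nil, or_false, exists_eq_or_imp, exists_eq_left,
        b0, b1, b2, b3, b4, b5, b6, b7, b8, b9, e1, e2]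
      omega
  have v3 : Gd hd hb g t (fun u => u = 3) :=
    (D1.and (v7.nbr1 (by omega)).not).congr fun u hu => by
      simp only [List.mem_cons, List.not_mem_nil, or_false, exists_eq_or_imp, exists_eq_left,
        b0, b1, b2, b3, b4, b5, b6, b7, b8, b9, e1, e2]
      omega
  have v2 : Gd hd hb g t (fun u => u = 2) :=
    (T.and (v3.nbr1 (by omega))).congr fun u hu => by
      simp only [List.mem_cons, List.not_mem_nil, or_false, exists_eq_or_imp, exists_eq_left,
        b0, b1, b2, b3, b4, b5, b6, b7, b8, b9, e1, e2]
      omega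
  have v9 : Gd hd hb g t (fun u => u = 9) :=
    (D1.not.and (v7.nbr1 (by omega))).congr fun u hu => by
      simp only [List.mem_cons, List.not_mem_nil, or_false, exists_eq_or_imp, exists_eq_left,
        b0, b1, b2, b3, b4, b5, b6, b7, b8, b9, e1, e2]
      omega
  have v6 : Gd hd hb g t (fun u => u = 6) :=
    ((D2.and v7.not).and ((v9.nbr1 (by omega)).and (v3.nbr1 (by omega)).not)).congr fun u hu => by
      simp only [List.mem_cons, List.not_mem_nil, or_false, exists_eq_or_imp, exists_eq_left,
        b0, b1, b2, b3, b4, b5, b6, b7, b8, b9, e1, e2]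
      omega
  have v8 : Gd hd hb g t (fun u => u = 8) :=
    ((D2.and v7.not).and (v6.not.and (v3.nbr1 (by omega)).not)).congr fun u hu => by
      simp only [List.mem_cons, List.not_mem_nil, or_false, exists_eq_or_imp, exists_eq_left,
        b0, b1, b2, b3, b4, b5, b6, b7, b8, b9, e1, e2]
      omega
  have v4 : Gd hd hb g t (fun u => u = 4) :=
    (D1.and (v6.nbr1 (by omega))).congr fun u hu => by
      simp only [List.mem_cons, List.not_mem_nil, or_false, exists_eq_or_imp, exists_eq_left,
        b0, b1, b2, b3, b4, b5, b6, b7, b8, b9, e1, e2]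
      omega
  have v5 : Gd hd hb g t (fun u => u = 5) :=
    (D1.and (v8.nbr1 (by omega))).congr fun u hu => by
      simp only [List.mem_cons, List.not_mem_nil, or_false, exists_eq_or_imp, exists_eq_left,
        b0, b1, b2, b3, b4, b5, b6, b7, b8, b9, e1, e2]
      omega
  have v0 : Gd hd hb g t (fun u => u = 0) :=
    (T.and (v4.nbr1 (by omega))).congr fun u hu => by
      simp only [List.mem_cons, List.not_mem_nil, or_false, exists_eq_or_imp, exists_eq_left,
        b0, b1, b2, b3, b4, b5, b6, b7, b8, b9, e1, e2]
      omega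
  have v1 : Gd hd hb g t (fun u => u = 1) :=
    (T.and (v5.nbr1 (by omega))).congr fun u hu => by
      simp only [List.mem_cons, List.not_mem_nil, or_false, exists_eq_or_imp, exists_eq_left,
        b0, b1, b2, b3, b4, b5, b6, b7, b8, b9, e1, e2]
      omega
  have v11 : Gd hd hb g t (fun u => u = 11) :=
    ((v9.nbr1 (by omega)).and (v7.not.and v6.not)).congr fun u hu => by
      simp only [List.mem_cons, List.not_mem_nil, or_false, exists_eq_or_imp, exists_eq_left,
        b0, b1, b2, b3, b4, b5, b6, b7, b8, b9, e1, e2]
      omega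
  rcases hc with hc | rfl
  · interval_cases c <;> assumption
  · exact v11

lemma Gd.pend {c : ℕ} (h : Gd hd hb g t (fun u => u = c)) (h1 : 2 * d ≤ c)
    (h2 : c < 2 * d + 2 * b) (h3 : c % 2 = 0) : Gd hd hb g t (fun u => u = c + 1) := by
  refine ((h.nbr1 h2).and h.not.nbr.not).congr fun u hu => ⟨fun ⟨k1, k2⟩ => ?_, ?_⟩
  · by_contra hn
    rw [B_p hd hb h1 h2 h3] at k1
    obtain ⟨x, y, z, ⟨m1, m2, -, n, -⟩, hx⟩ := exists_nbrsB hd hb u hu (by omega)
    by_cases e : x = c
    · exact k2 ⟨y, m2, by omega, (hx y).2 (by simp)⟩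
    · exact k2 ⟨x, m1, e, (hx x).2 (by simp)⟩
  · rintro rfl
    refine ⟨(B_p hd hb h1 h2 h3 _).2 (Or.inl rfl), fun ⟨v, _, k1, k2⟩ => ?_⟩
    rw [B_c hd hb (by omega) hu (by omega)] at k2
    omega

theorem gd_single (hg : g (d - 1) ≠ g (d - 2) * g (d - 3)) (c : ℕ) (hc : c < 2 * d + 2 * b) :
    Gd hd hb g t (fun u => u = c) := by
  have sm := gd_small (hd := hd) (hb := hb) (t := t) hg
  have v8 := sm 8 (by omega)
  have ch : ∀ i < b, Gd hd hb g t (fun u => u = 2 * d + 2 * i) := by
    intro i
    induction i using Nat.strong_induction_on with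
    | _ i ih =>
      intro hi
      rcases i with _ | i
      · exact ((v8.nbr1 (by omega)).and ((sm 5 (by omega)).not.and
          (sm 6 (by omega)).not)).congr fun u hu => by rw [B8 hd hb]; omega
      have k := ih i (by omega) (by omega)
      have k1 := (k.nbr1 (by omega)).and ((k.pend (by omega) (by omega) (by omega)).not.and v8.not)
      rcases i with _ | i
      · exact k1.congr fun u hu => by rw [B_p hd hb (by omega) (by omega) (by omega)]; omega
      · exact (k1.and (ih i (by omega) (by omega)).not).congr fun u hu => by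
          rw [B_p hd hb (by omega) (by omega) (by omega)]; omega
  have pl := ch (b - 1) (by omega)
  have v10 : Gd hd hb g t (fun u => u = 10) := by
    have k1 := (pl.nbr1 (by omega)).and ((pl.pend (by omega) (by omega) (by omega)).not.and v8.not)
    by_cases h1 : b = 1
    · exact k1.congr fun u hu => by rw [B_p hd hb (by omega) (by omega) (by omega)]; omega
    · exact (k1.and (ch (b - 2) (by omega)).not).congr fun u hu => by
        rw [B_p hd hb (by omega) (by omega) (by omega)]; omega
  by_cases h2d : c < 2 * d
  · induction c using Nat.strong_induction_on with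
    | _ c ih =>
      by_cases h12 : c < 12
      · by_cases h10 : c = 10
        · exact h10 ▸ v10
        · exact sm c (by omega)
      · by_cases h2 : c % 2 = 0
        · exact ((((ih (c - 2) (by omega) (by omega) (by omega)).nbr1 (by omega)).and
            ((ih (c - 4) (by omega) (by omega) (by omega)).not.and
              (ih (c - 1) (by omega) (by omega) (by omega)).not)).and pl.not).congr fun u hu => by
            rw [B_ge hd hb (by omega) (by omega)]
            omega
        · exact (((ih (c - 2) (by omega) (by omega) (by omega)).nbr1 (by omega)).and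
            ((ih (c - 4) (by omega) (by omega) (by omega)).not.and
              (ih (c - 3) (by omega) (by omega) (by omega)).not)).congr fun u hu => by
            rw [B_ge hd hb (by omega) (by omega)]
            omega
  · have k := ch ((c - 2 * d) / 2) (by omega)
    by_cases h2 : c % 2 = 0
    · exact k.congr fun u hu => by omega
    · exact (k.pend (by omega) (by omega) (by omega)).congr fun u hu => by omega

end Pool.Agent.Lib.MP_b549f0_co
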