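import Pool.Agent.Lib.MP_b549f0_co.UpperC

/-!
One extra chord removes the freedom at the branch points: the automorphism group is the deck group.
-/

namespace Pool.Agent.Lib.MP_b549f0_co

universe u

variable {G : Type*} [Group G] {d b : ℕ} {hd : 6 ≤ d} {hb : 1 ≤ b} {g t : ℕ → G}

lemma signs {β : G → G} (L : List G) (h3 : ∀ s ∈ L, orderOf s = 3)
    (h1 : ∀ s ∈ L, ∀ x, β (x * s) = β x * s ∨ β (x * s) = β x * s⁻¹)
    (h2 : L.Nodup) (h4 : ∀ s ∈ L, s ∉ Subgroup.closure ({a | a ∈ L} \ {s}))
    (h5 : ∀ x, β (x * L.prod) = β x * L.prod) : ∀ s ∈ L, ∀ x, β (x * s) = β x * s := by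
  have sub : ∀ (M : List G) (K : Subgroup G), (∀ s ∈ M, s ∈ L ∧ s ∈ K) →
      ∀ x, (β x)⁻¹ * β (x * M.prod) ∈ K := by
    intro M K hM
    induction M with
    | nil => intro x; simp
    | cons a M ih =>
      intro x
      have k := ih (fun s hs => hM s (List.mem_cons_of_mem _ hs)) (x * a)
      have ha := hM a List.mem_cons_self
      rw [List.prod_cons, ← mul_assoc]
      rcases h1 a ha.1 x with e | e <;> rw [e, mul_inv_rev, mul_assoc] at k
      · exact (K.mul_mem_cancel_left (inv_mem ha.2)).1 k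
      · exact (K.mul_mem_cancel_left (inv_mem (inv_mem ha.2))).1 k
  have main : ∀ M : List G, (∀ s ∈ M, s ∈ L) → M.Nodup →
      (∀ x, β (x * M.prod) = β x * M.prod) → ∀ s ∈ M, ∀ x, β (x * s) = β x * s := by
    intro M
    induction M with
    | nil => simp
    | cons a M ih =>
      intro k1 k2 k3
      have ha := k1 a List.mem_cons_self
      obtain ⟨n1, n2⟩ := List.nodup_cons.1 k2
      have mem : ∀ s ∈ M, s ∈ L ∧ s ∈ Subgroup.closure ({a | a ∈ L} \ {a}) := fun s hs =>
        ⟨k1 s (List.mem_cons_of_mem _ hs), Subgroup.subset_closure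
          ⟨k1 s (List.mem_cons_of_mem _ hs), fun e => n1 (e ▸ hs)⟩⟩
      have ka : ∀ x, β (x * a) = β x * a := fun x => (h1 a ha x).resolve_right fun e => by
        have k := sub M _ mem (x * a)
        rw [mul_assoc, ← List.prod_cons, k3, e, List.prod_cons] at k
        have k' : a * a ∈ Subgroup.closure ({a | a ∈ L} \ {a}) := by
          refine (Subgroup.mul_mem_cancel_right _ (list_prod_mem fun s hs => (mem s hs).2)).1 ?_
          simpa [mul_assoc] using k
        have e3 : a * a * (a * a) = a := by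
          have := pow_orderOf_eq_one a
          rw [h3 a ha] at this
          rw [show a * a * (a * a) = a ^ 3 * a by simp [pow_succ, mul_assoc], this, one_mul]
        have k'' := mul_mem k' k'
        rw [e3] at k''
        exact h4 a ha k''
      have kM : ∀ x, β (x * M.prod) = β x * M.prod := fun x => by
        have := k3 (x * a⁻¹)
        rw [List.prod_cons, ← mul_assoc, ← mul_assoc, ← ka, inv_mul_cancel_right] at this
        exact this
      intro s hs
      rcases List.mem_cons.1 hs with rfl | hs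
      · exact ka
      · exact ih (fun s hs => (mem s hs).1) n2 kM s hs
  exact main L (fun _ h => h) h2 h5

/-- deck transformations -/
def dk (hd : 6 ≤ d) (hb : 1 ≤ b) (g t : ℕ → G) : G →* (bc hd hb g t ≃g bc hd hb g t) where
  toFun h :=
    { toEquiv := Equiv.sigmaCongrRight fun _ => MulAction.toPerm h
      map_rel_iff' := by
        intro p r
        obtain ⟨u, hu, x, rfl⟩ := exists_vt' p
        obtain ⟨v, hv, y, rfl⟩ := exists_vt' r
        change (bc hd hb g t).Adj (vt t u hu (h * x)) (vt t v hv (h * y)) ↔ _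
        rw [adj_vt, adj_vt]
        refine and_congr Iff.rfl ⟨fun ⟨z, h1, h2⟩ => ⟨h⁻¹ * z, ?_, ?_⟩,
          fun ⟨z, h1, h2⟩ => ⟨h * z, ?_, ?_⟩⟩
        · simpa [mul_assoc] using h1
        · simpa [mul_assoc] using h2
        · simpa [mul_assoc] using h1
        · simpa [mul_assoc] using h2 }
  map_one' := RelIso.ext fun p => congrArg (Sigma.mk p.1) (one_smul G p.2)
  map_mul' h k := RelIso.ext fun p => congrArg (Sigma.mk p.1) (mul_smul h k p.2)

lemma dk_vt (h : G) (u : ℕ) (hu : u < 2 * d + 2 * b) (x : G) :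
    dk hd hb g t h (vt t u hu x) = vt t u hu (h * x) := rfl

theorem dk_bijective (hg : g (d - 1) ≠ g (d - 2) * g (d - 3)) (ht : ∀ i < b, orderOf (t i) = 3)
    (rig : ∀ β : G → G, (∀ i < d, ∀ x, β (x * g i) = β x * g i) →
      (∀ i < b, ∀ x, β (x * t i) = β x * t i ∨ β (x * t i) = β x * (t i)⁻¹) →
      ∀ x, β x = β 1 * x) : Function.Bijective (dk hd hb g t) := by
  have h0 : 0 < 2 * d + 2 * b := by omega
  refine ⟨fun h k hk => ?_, fun α => ?_⟩
  · have := congrArg (fun α : bc hd hb g t ≃g bc hd hb g t => α (vt t 0 h0 1)) hk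
    simpa [dk_vt, vt_eq, H_bot, inv_mul_eq_one] using this
  have fib : ∀ u hu x, ∃ y, α (vt t u hu x) = vt t u hu y := fun u hu x => by
    obtain ⟨v, hv, y, e⟩ := exists_vt' (α (vt t u hu x))
    have := gd_single (hd := hd) (hb := hb) (t := t) hg u hu α (vt t u hu x) rfl
    rw [e] at this
    obtain rfl : v = u := this
    exact ⟨y, e⟩
  choose β hβ using fib 0 h0
  have step : ∀ u v hu hv x y, ¬ (2 * d ≤ u ∧ u % 2 = 1) → ¬ (2 * d ≤ v ∧ v % 2 = 1) → B d b u v →
      α (vt t u hu x) = vt t u hu y →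
      α (vt t v hv (x * ph d g u v)) = vt t v hv (y * ph d g u v) := by
    intro u v hu hv x y o1 o2 h e
    obtain ⟨y', e'⟩ := fib v hv (x * ph d g u v)
    have := α.map_adj_iff.2 (adj_step (g := g) (t := t) hu hv h x)
    rw [e, e'] at this
    obtain ⟨-, z, k1, k2⟩ := adj_vt.1 this
    rw [H_bot t o1, Subgroup.mem_bot, inv_mul_eq_one] at k1
    rw [e', k1]
    exact vt_eq.2 ⟨rfl, k2⟩
  have st1 : ∀ u v hu hv, ¬ (2 * d ≤ u ∧ u % 2 = 1) → ¬ (2 * d ≤ v ∧ v % 2 = 1) → B d b u v →
      ph d g u v = 1 → (∀ x, α (vt t u hu x) = vt t u hu (β x)) →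
      ∀ x, α (vt t v hv x) = vt t v hv (β x) := fun u v hu hv o1 o2 h e k x => by
    simpa [e] using step u v hu hv x _ o1 o2 h (k x)
  have ch : (∀ x, α (vt t 8 (by omega) x) = vt t 8 (by omega) (β x)) → ∀ i, ∀ hi : i < b, ∀ x,
      α (vt t (2 * d + 2 * i) (by omega) x) = vt t (2 * d + 2 * i) (by omega) (β x) := by
    intro k i
    induction i with
    | zero =>
      exact fun hi => st1 8 _ _ _ (by omega) (by omega) (by rw [B8 hd hb]; omega)
        (ph_ge g (by omega)) k
    | succ i ih =>
      exact fun hi => st1 _ _ _ _ (by omega) (by omega)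
        (by rw [B_p hd hb (by omega) (by omega) (by omega)]; omega) (ph_ge g (by omega))
        (ih (by omega))
  have tree : ∀ u, ∀ hu : u < 2 * d, ∀ x,
      α (vt t u (by omega) x) = vt t u (by omega) (β x) := by
    intro u
    induction u using Nat.strong_induction_on with
    | _ u ih =>
      intro hu
      have s : ∀ v, v < u → B d b v u → phi d g v u = 1 → ∀ x,
          α (vt t u (by omega) x) = vt t u (by omega) (β x) := fun v hv h1 h2 =>
        st1 v u _ _ (by omega) (by omega) h1 ((ph_lt g (by omega) hu).trans h2)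
          (ih v hv (by omega))
      by_cases h6 : u < 6
      · interval_cases u
        · exact hβ
        · exact s 0 (by omega) (by simp [B0 hd hb]) (by simp [phi, psi])
        · exact s 0 (by omega) (by simp [B0 hd hb]) (by simp [phi, psi])
        · exact s 2 (by omega) (by simp [B2 hd hb]) (by simp [phi, psi])
        · exact s 0 (by omega) (by simp [B0 hd hb]) (by simp [phi, psi])
        · exact s 1 (by omega) (by simp [B1 hd hb]) (by simp [phi, psi])
      by_cases h10 : u = 10
      · subst h10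
        exact st1 _ _ _ _ (by omega) (by omega)
          (by rw [B_p hd hb (by omega) (by omega) (by omega)]; omega) (ph_ge g (by omega))
          (ch (ih 8 (by omega) (by omega)) (b - 1) (by omega))
      refine s (u - 2) (by omega) (B_symm hd hb ?_) ?_
      · by_cases h10 : u < 10
        · interval_cases u <;> simp [B6 hd hb, B7 hd hb, B8 hd hb, B9 hd hb]
        · rw [B_ge hd hb (by omega) hu]; omega
      unfold phi psi
      rw [if_pos (by omega), if_neg (by omega), if_neg (by omega), if_neg (by omega),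
        if_neg (by omega), if_neg (by omega)]
  have gen : ∀ i < d, ∀ x, β (x * g i) = β x * g i := by
    intro i hi x
    have s : ∀ u v, u < 2 * d → v < 2 * d → B d b u v → phi d g u v = g i →
        β (x * g i) = β x * g i := by
      intro u v hu hv h1 h2
      have := step u v _ (by omega) x _ (by omega) (by omega) h1 (tree u hu x)
      rw [ph_lt g hu hv, h2, tree v hv, vt_eq, H_bot t (by omega)] at this
      exact inv_mul_eq_one.1 this.2
    by_cases h3 : i < 3
    · interval_cases i
      · exact s 4 7 (by omega) (by omega) (by simp [B4 hd hb]) (by simp [phi, psi])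
      · exact s 6 9 (by omega) (by omega) (by simp [B6 hd hb]) (by simp [phi, psi])
      · exact s 5 8 (by omega) (by omega) (by simp [B5 hd hb]) (by simp [phi, psi])
    by_cases h4 : i = d - 2
    · exact s 3 (2 * d - 2) (by omega) (by omega) (by simp [B3 hd hb]) (h4 ▸ phi_a hd)
    by_cases h5 : i = d - 1
    · exact s 3 (2 * d - 1) (by omega) (by omega) (by simp [B3 hd hb]) (h5 ▸ phi_b hd)
    · exact s (2 * (i + 2)) (2 * (i + 2) + 1) (by omega) (by omega)
        (by rw [B_ge hd hb (by omega) (by omega)]; omega) (by rw [phi_rung (by omega)]; rfl)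
  have ch' := ch (tree 8 (by omega))
  have pd : ∀ i, ∀ hi : i < b, ∀ x, α (vt t (2 * d + 2 * i + 1) (by omega) x) =
      vt t (2 * d + 2 * i + 1) (by omega) (β x) := by
    intro i hi x
    obtain ⟨y, e⟩ := fib (2 * d + 2 * i + 1) (by omega) x
    have := α.map_adj_iff.2 (adj_step (g := g) (t := t) (u := 2 * d + 2 * i)
      (v := 2 * d + 2 * i + 1) (by omega) (by omega)
      ((B_p hd hb (by omega) (by omega) (by omega) _).2 (Or.inl rfl)) x)
    rw [ph_ge g (by omega), mul_one, ch' i hi, e] at this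
    obtain ⟨-, z, k1, k2⟩ := adj_vt.1 this
    rw [H_bot t (by omega), Subgroup.mem_bot, inv_mul_eq_one] at k1
    rw [ph_ge g (by omega), mul_one, ← k1] at k2
    exact e.trans (vt_eq.2 ⟨rfl, k2⟩)
  have all := rig β gen fun i hi x => by
    have e : vt t (2 * d + 2 * i + 1) (by omega) x =
        (vt t (2 * d + 2 * i + 1) (by omega) (x * t i) : W d b t) :=
      vt_eq.2 ⟨rfl, by rw [H_c]; simp⟩
    have k := pd i hi x
    rw [e, pd i hi, eq_comm, vt_eq, H_c] at k
    rcases mem_three (ht i hi) k.2 with h | h | h <;> rw [inv_mul_eq_iff_eq_mul] at h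
    · have k2 := hβ (x * t i)
      rw [h, mul_one, ← hβ, α.injective.eq_iff, vt_eq, H_bot t (by omega)] at k2
      exact ((three_ne (ht i hi)).1 (by simpa using k2.2)).elim
    · exact Or.inl h
    · exact Or.inr h
  refine ⟨β 1, RelIso.ext fun p => ?_⟩
  obtain ⟨u, hu, x, rfl⟩ := exists_vt' p
  rw [dk_vt, ← all x]
  by_cases h2d : u < 2 * d
  · exact (tree u h2d x).symm
  rcases Nat.mod_two_eq_zero_or_one u with e | e
  · obtain ⟨i, rfl⟩ : ∃ i, u = 2 * d + 2 * i := ⟨(u - 2 * d) / 2, by omega⟩
    exact (ch' i (by omega) x).symm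
  · obtain ⟨i, rfl⟩ : ∃ i, u = 2 * d + 2 * i + 1 := ⟨(u - 2 * d) / 2, by omega⟩
    exact (pd i (by omega) x).symm

theorem upper_aux {G : Type u} [Group G] [Finite G] {d b : ℕ} (hd : 6 ≤ d) (g t : ℕ → G)
    (hg : g (d - 1) ≠ g (d - 2) * g (d - 3)) (ht : ∀ i < b, orderOf (t i) = 3)
    (rig : ∀ β : G → G, (∀ i < d, ∀ x, β (x * g i) = β x * g i) →
      (∀ i < b, ∀ x, β (x * t i) = β x * t i ∨ β (x * t i) = β x * (t i)⁻¹) →
      ∀ x, β x = β 1 * x) (h0 : b = 0 → Subgroup.closure (g '' {i | i < d}) = ⊤) :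
    ∃ (V : Type u) (X : SimpleGraph V), Finite V ∧ (∀ v, (X.neighborSet v).ncard = 3) ∧
      Nonempty ((X ≃g X) ≃* G) ∧ 3 * Nat.card V = Nat.card G * (6 * d + 4 * b) := by
  rcases Nat.eq_zero_or_pos b with rfl | hb
  · refine ⟨Fin (2 * d) × G, cover _ hd g, inferInstance, cover_ncard hd g,
      ⟨(MulEquiv.ofBijective (deck hd g) (deck_bijective hd g (h0 rfl) hg)).symm⟩, ?_⟩
    rw [Nat.card_prod, Nat.card_eq_fintype_card, Fintype.card_fin]
    ring
  · exact ⟨W d b t, bc hd hb g t, inferInstance, bc_ncard ht,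
      ⟨(MulEquiv.ofBijective (dk hd hb g t) (dk_bijective hg ht rig)).symm⟩, card_W ht⟩

theorem upper_bound {G : Type u} [Group G] [Finite G] [Nontrivial G] (S : Finset G)
    (hS : Subgroup.closure (S : Set G) = ⊤) :
    ∃ (V : Type u) (X : SimpleGraph V), Finite V ∧ (∀ v, (X.neighborSet v).ncard = 3) ∧
      Nonempty ((X ≃g X) ≃* G) ∧ 3 * Nat.card V ≤ Nat.card G *
        (4 * (S.filter fun s => orderOf s = 3).card +
          6 * (S.filter fun s => orderOf s ≠ 3).card + 36) := by
  classical
  obtain ⟨S', hS', hmin⟩ := (S.powerset.filter fun T : Finset G =>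
    Subgroup.closure (T : Set G) = ⊤).exists_min_image Finset.card ⟨S, by simpa using hS⟩
  simp only [Finset.mem_filter, Finset.mem_powerset] at hS' hmin
  have irr : ∀ s ∈ S', s ∉ Subgroup.closure ((S' : Set G) \ {s}) := by
    intro s hs h
    have := hmin (S'.erase s) ⟨(Finset.erase_subset _ _).trans hS'.1, ?_⟩
    · have := Finset.card_erase_lt_of_mem hs
      omega
    rw [eq_top_iff, ← hS'.2, Subgroup.closure_le, Finset.coe_erase]
    intro a ha
    by_cases e : a = s
    · exact e ▸ h
    · exact Subgroup.subset_closure ⟨ha, e⟩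
  set L := (S'.filter fun s => orderOf s = 3).toList with hL
  set M := (S'.filter fun s => orderOf s ≠ 3).toList with hM
  have mL : ∀ s, s ∈ L ↔ s ∈ S' ∧ orderOf s = 3 := fun s => by simp [hL]
  have mM : ∀ s, s ∈ M ↔ s ∈ S' ∧ orderOf s ≠ 3 := fun s => by simp [hM]
  obtain ⟨w, hw⟩ := exists_ne (1 : G)
  let g : ℕ → G := fun i => if i = M.length then L.prod else if i = M.length + 5 then w
    else M.getD i 1
  have gM : ∀ s ∈ M, ∃ i < M.length + 6, g i = s := fun s hs => by
    obtain ⟨i, hi, rfl⟩ := List.getElem_of_mem hs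
    exact ⟨i, by omega, by simp [g, hi, hi.ne, show i ≠ M.length + 5 by omega]⟩
  obtain ⟨V, X, h1, h2, h3, h4⟩ := upper_aux (d := M.length + 6) (b := L.length) (by omega) g
    (fun i => L.getD i 1) (by simpa [g] using hw)
    (fun i hi => ((mL _).1 (by simp [hi])).2) (fun β k1 k2 x => by
      have k3 := signs (β := β) L (fun s hs => ((mL s).1 hs).2) (fun s hs => by
          obtain ⟨i, hi, rfl⟩ := List.getElem_of_mem hs
          simpa [hi] using k2 i hi) (Finset.nodup_toList _)
        (fun s hs h => irr s ((mL s).1 hs).1 (Subgroup.closure_mono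
          (Set.sdiff_subset_sdiff_left fun a ha => ((mL a).1 ha).1) h))
        (by simpa [g] using k1 M.length (by omega))
      have k4 : ∀ y ∈ Subgroup.closure (S' : Set G), ∀ x, β (x * y) = β x * y := by
        intro y hy
        induction hy using Subgroup.closure_induction with
        | mem y hy =>
          by_cases e : orderOf y = 3
          · exact k3 y ((mL y).2 ⟨hy, e⟩)
          · obtain ⟨i, hi, rfl⟩ := gM y ((mM y).2 ⟨hy, e⟩)
            exact k1 i hi
        | one => simp
        | mul y z _ _ h1 h2 => intro x; rw [← mul_assoc, h2, h1, mul_assoc]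
        | inv y _ h1 => intro x; rw [eq_mul_inv_iff_mul_eq, ← h1, inv_mul_cancel_right]
      simpa using k4 x (hS'.2 ▸ Subgroup.mem_top x) 1) (fun h0 => by
      rw [eq_top_iff, ← hS'.2]
      refine Subgroup.closure_mono fun y hy => gM y ((mM y).2 ⟨hy, fun e => ?_⟩)
      have := (mL y).2 ⟨hy, e⟩
      rw [List.length_eq_zero_iff.1 h0] at this
      simp at this)
  refine ⟨V, X, h1, h2, h3, h4 ▸ Nat.mul_le_mul_left _ ?_⟩
  have c1 := Finset.card_le_card (Finset.filter_subset_filter (fun s => orderOf s = 3) hS'.1)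
  have c2 := Finset.card_le_card (Finset.filter_subset_filter (fun s => orderOf s ≠ 3) hS'.1)
  rw [hL, hM, Finset.length_toList, Finset.length_toList]
  omega

end Pool.Agent.Lib.MP_b549f0_co
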